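import Pool.Agent.K6.H70.MT.Max

/-! Almost every twist. -/

set_option autoImplicit false

namespace Pool.Agent.K6.H70.MT

open Finset MeasureTheory

/-- the sum of all the blocks at scale `j` over the times `1, …, 2^i` -/
noncomputable def X (d : ℕ) (c : ℕ → ℤ → ℂ) (j i : ℕ) (α : Fin d → ℝ) : ℝ :=
  ∑ t ∈ Icc (1 : ℕ) (2 ^ i), W d (c j) α (t : ℝ) j

/-- the normalisation of `X` -/
noncomputable def wt (d : ℕ) (j i : ℕ) : ℝ :=
  ((j : ℝ) + 2) ^ (d + 2) * (2 ^ j) ^ (d + 1) * (2 ^ i + 2 ^ j) * ((j + 1) ^ 2 * (i + 1) ^ 2)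

theorem wt_pos (d j i : ℕ) : 0 < wt d j i := by
  unfold wt
  positivity

theorem X_nonneg (d : ℕ) (c : ℕ → ℤ → ℂ) (j i : ℕ) (α : Fin d → ℝ) : 0 ≤ X d c j i α :=
  sum_nonneg fun _ _ => W_nonneg _ _ _ _ _

theorem integrable_X (d : ℕ) (c : ℕ → ℤ → ℂ) (j i : ℕ) :
    Integrable (fun α => X d c j i α) (volume.restrict (cube d)) := by
  unfold X
  apply integrable_finsetSum
  intro t _
  exact integrable_W _ _ _ _

theorem int_X (d : ℕ) (c : ℕ → ℤ → ℂ) (hc : ∀ j n, ‖c j n‖ ≤ 1) (j i : ℕ) :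
    ∫ α in cube d, X d c j i α / wt d j i ≤ KK d * (1 / ((j : ℝ) + 1) ^ 2 * (1 / ((i : ℝ) + 1) ^ 2)) := by
  rw [integral_div, div_le_iff₀ (wt_pos d j i)]
  have h1 : ∫ α in cube d, X d c j i α = ∑ t ∈ Icc (1 : ℕ) (2 ^ i), ∫ α in cube d, W d (c j) α (t : ℝ) j := by
    unfold X
    rw [integral_finsetSum]
    intro t _
    exact integrable_W _ _ _ _
  rw [h1]
  have h2 := int_W d (c j) (hc j) j (2 ^ i) Nat.one_le_two_pow
  push_cast at h2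
  refine h2.trans (le_of_eq ?_)
  unfold wt
  field_simp

theorem summable_wt : Summable fun p : ℕ × ℕ => (1 / ((p.1 : ℝ) + 1) ^ 2 * (1 / ((p.2 : ℝ) + 1) ^ 2)) := by
  have h : Summable fun n : ℕ => 1 / ((n : ℝ) + 1) ^ 2 := by
    have := (summable_nat_add_iff (f := fun n : ℕ => 1 / ((n : ℝ)) ^ 2) 1).2
      (Real.summable_one_div_nat_pow.2 (by norm_num))
    simpa using this
  exact h.mul_of_nonneg h (fun _ => by positivity) (fun _ => by positivity)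

theorem ae_X (d : ℕ) (c : ℕ → ℤ → ℂ) (hc : ∀ j n, ‖c j n‖ ≤ 1) :
    ∀ᵐ α ∂(volume.restrict (cube d)), ∃ Y : ℝ, 0 ≤ Y ∧ ∀ j i, X d c j i α ≤ Y * wt d j i := by
  have hm : ∀ p : ℕ × ℕ, AEMeasurable (fun α => ENNReal.ofReal (X d c p.1 p.2 α / wt d p.1 p.2))
      (volume.restrict (cube d)) := fun p =>
    ((integrable_X d c p.1 p.2).div_const _).aestronglyMeasurable.aemeasurable.ennreal_ofReal
  have h1 : ∫⁻ α in cube d, ∑' p : ℕ × ℕ, ENNReal.ofReal (X d c p.1 p.2 α / wt d p.1 p.2) ≠ ⊤ := by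
    rw [lintegral_tsum hm]
    have h2 : ∀ p : ℕ × ℕ, ∫⁻ α in cube d, ENNReal.ofReal (X d c p.1 p.2 α / wt d p.1 p.2) ≤
        ENNReal.ofReal (KK d * (1 / ((p.1 : ℝ) + 1) ^ 2 * (1 / ((p.2 : ℝ) + 1) ^ 2))) := by
      intro p
      rw [← ofReal_integral_eq_lintegral_ofReal ((integrable_X d c p.1 p.2).div_const _)
        (Filter.Eventually.of_forall fun α => div_nonneg (X_nonneg _ _ _ _ _) (wt_pos _ _ _).le)]
      exact ENNReal.ofReal_le_ofReal (int_X d c hc p.1 p.2)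
    apply ne_top_of_le_ne_top _ (ENNReal.tsum_le_tsum h2)
    rw [← ENNReal.ofReal_tsum_of_nonneg (fun p => mul_nonneg (KK_pos d).le (by positivity))
      (summable_wt.mul_left _)]
    exact ENNReal.ofReal_ne_top
  have h3 := ae_lt_top' (AEMeasurable.tsum hm) h1
  filter_upwards [h3] with α hα
  refine ⟨(∑' p : ℕ × ℕ, ENNReal.ofReal (X d c p.1 p.2 α / wt d p.1 p.2)).toReal,
    ENNReal.toReal_nonneg, fun j i => ?_⟩
  rw [← div_le_iff₀ (wt_pos d j i)]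
  have h4 : ENNReal.ofReal (X d c j i α / wt d j i) ≤
      ∑' p : ℕ × ℕ, ENNReal.ofReal (X d c p.1 p.2 α / wt d p.1 p.2) :=
    ENNReal.le_tsum (f := fun p : ℕ × ℕ => ENNReal.ofReal (X d c p.1 p.2 α / wt d p.1 p.2)) (j, i)
  have h5 := ENNReal.toReal_mono hα.ne h4
  rwa [ENNReal.toReal_ofReal (div_nonneg (X_nonneg _ _ _ _ _) (wt_pos _ _ _).le)] at h5

/-- the polynomial over `u ≤ n ≤ v` twisted by `e(α_1 n + … + α_d n^d)` -/
noncomputable def D (d : ℕ) (b : ℕ → ℂ) (α : Fin d → ℝ) (u v : ℕ) (t : ℝ) : ℂ :=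
  ∑ n ∈ Icc u v, b n * ev α (vv d n) * Complex.exp (Complex.I * t * Real.log n)

theorem D_eq (d : ℕ) (c : ℤ → ℂ) (b : ℕ → ℂ) (hcb : ∀ n : ℕ, c n = b n) (α : Fin d → ℝ) (t : ℝ)
    {u v j : ℕ} (hj : 2 ^ j ≤ u) (huv : u ≤ v) :
    D d b α u v t = ∑ r ∈ range (v + 1 - 2 ^ j), tm d c α t j r -
      ∑ r ∈ range (u - 2 ^ j), tm d c α t j r := by
  rw [← sum_Ico_eq_sub _ (by omega : u - 2 ^ j ≤ v + 1 - 2 ^ j)]
  unfold D
  have h1 : Icc u v = Ico (u - 2 ^ j + 2 ^ j) (v + 1 - 2 ^ j + 2 ^ j) := by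
    ext n
    rw [mem_Icc, mem_Ico]
    omega
  rw [h1, ← sum_Ico_add' (fun n => b n * ev α (vv d n) * Complex.exp (Complex.I * t * Real.log n))]
  apply sum_congr rfl
  intro r _
  unfold tm
  have h2 : ((2 : ℤ) ^ j + r) = ((r + 2 ^ j : ℕ) : ℤ) := by push_cast; ring
  rw [h2, hcb]
  push_cast
  rw [← mul_assoc Complex.I]
  ring

theorem D_le (d : ℕ) (c : ℤ → ℂ) (b : ℕ → ℂ) (hcb : ∀ n : ℕ, c n = b n) (α : Fin d → ℝ) (t : ℝ)
    {N u v j : ℕ} (hj : 2 ^ j ≤ N) (hj' : N < 2 ^ (j + 1)) (hu : N ≤ u) (hv : v ≤ 2 * N) :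
    ‖D d b α u v t‖ ^ (2 * (d + 1)) ≤
      4 ^ (d + 1) * (((j : ℝ) + 2) ^ (2 * d + 1) * W d c α t j) := by
  rcases Nat.lt_or_ge v u with huv | huv
  · have : D d b α u v t = 0 := by
      unfold D
      rw [Icc_eq_empty (by omega), sum_empty]
    rw [this, norm_zero, zero_pow (by omega)]
    exact mul_nonneg (by positivity) (mul_nonneg (by positivity) (W_nonneg _ _ _ _ _))
  rw [D_eq d c b hcb α t (hj.trans hu) huv]
  set A := ∑ r ∈ range (v + 1 - 2 ^ j), tm d c α t j r with hA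
  set B := ∑ r ∈ range (u - 2 ^ j), tm d c α t j r with hB
  have h1 : ‖A‖ ^ (2 * (d + 1)) ≤ ((j : ℝ) + 2) ^ (2 * d + 1) * W d c α t j :=
    seg_le d c α t j _ (by rw [pow_add] at hj' ⊢; omega)
  have h2 : ‖B‖ ^ (2 * (d + 1)) ≤ ((j : ℝ) + 2) ^ (2 * d + 1) * W d c α t j :=
    seg_le d c α t j _ (by rw [pow_add] at hj' ⊢; omega)
  have h3 : ‖A - B‖ ≤ 2 * max ‖A‖ ‖B‖ := by
    have := norm_sub_le A B
    linarith [le_max_left ‖A‖ ‖B‖, le_max_right ‖A‖ ‖B‖]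
  have h4 : ‖A - B‖ ^ (2 * (d + 1)) ≤ (2 * max ‖A‖ ‖B‖) ^ (2 * (d + 1)) :=
    pow_le_pow_left₀ (norm_nonneg _) h3 _
  have h5 : (max ‖A‖ ‖B‖) ^ (2 * (d + 1)) ≤ ((j : ℝ) + 2) ^ (2 * d + 1) * W d c α t j := by
    rcases max_choice ‖A‖ ‖B‖ with h | h <;> rw [h] <;> assumption
  rw [mul_pow, pow_mul (2 : ℝ) 2] at h4
  norm_num at h4
  refine h4.trans ?_
  exact mul_le_mul_of_nonneg_left h5 (by positivity)

/-- the bound of the theorem -/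
noncomputable def bd (d N T : ℕ) : ℝ :=
  (1 + Real.log N) ^ (3 * d + 5) * (1 + Real.log T) ^ 2 * (N : ℝ) ^ (d + 1) * (N + T)

theorem of_X (d : ℕ) (c : ℕ → ℤ → ℂ) (b : ℕ → ℕ → ℂ) (hcb : ∀ (j n : ℕ), c j n = b j n)
    (α : Fin d → ℝ) {Y : ℝ} (hY : 0 ≤ Y) (h : ∀ j i, X d c j i α ≤ Y * wt d j i) :
    ∃ C : ℝ, ∀ N T : ℕ, 1 ≤ N → 1 ≤ T → ∀ u v : ℕ → ℕ, (∀ t, N ≤ u t ∧ v t ≤ 2 * N) →
      ∑ t ∈ Icc 1 T, ‖D d (b (Nat.log 2 N)) α (u t) (v t) t‖ ^ (2 * (d + 1)) ≤ C * bd d N T := by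
  refine ⟨4 ^ (d + 1) * Y * (2 ^ (3 * d + 5) * 2 ^ 2 * 2), fun N T hN hT u v huv => ?_⟩
  set j := Nat.log 2 N with hj
  set i := Nat.clog 2 T with hi
  have hj1 : 2 ^ j ≤ N := Nat.pow_log_le_self 2 (by omega)
  have hj2 : N < 2 ^ (j + 1) := Nat.lt_pow_succ_log_self (by norm_num) N
  have hi1 : T ≤ 2 ^ i := Nat.le_pow_clog (by norm_num) T
  have hi2 : 2 ^ i ≤ 2 * T := by
    rcases Nat.lt_or_ge 1 T with h1 | h1
    · have := Nat.pow_pred_clog_lt_self (b := 2) (by norm_num) h1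
      have hi0 : 0 < i := Nat.clog_pos (by norm_num) h1
      have e : i = i.pred + 1 := (Nat.succ_pred_eq_of_pos hi0).symm
      rw [e, pow_succ]
      rw [← hi] at this
      omega
    · have : T = 1 := by omega
      rw [hi, this]
      simp
  have h1 : ∑ t ∈ Icc 1 T, ‖D d (b j) α (u t) (v t) t‖ ^ (2 * (d + 1)) ≤
      4 ^ (d + 1) * (((j : ℝ) + 2) ^ (2 * d + 1) * X d c j i α) := by
    unfold X
    rw [mul_sum, mul_sum]
    refine (sum_le_sum fun (t : ℕ) _ => D_le d (c j) (b j) (hcb j) α (t : ℝ) hj1 hj2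
      (huv t).1 (huv t).2).trans ?_
    exact sum_le_sum_of_subset_of_nonneg (Icc_subset_Icc_right hi1)
      fun t _ _ => mul_nonneg (by positivity) (mul_nonneg (by positivity) (W_nonneg _ _ _ _ _))
  refine h1.trans ?_
  have hlogN : 0 ≤ Real.log N := Real.log_natCast_nonneg N
  have hlogT : 0 ≤ Real.log T := Real.log_natCast_nonneg T
  have hl2 : (0.6931 : ℝ) < Real.log 2 := by linarith [Real.log_two_gt_d9]
  have h2 : (j : ℝ) + 2 ≤ 2 * (1 + Real.log N) := by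
    have h3 : (j : ℝ) * Real.log 2 ≤ Real.log N := by
      rw [← Real.log_pow]
      apply Real.log_le_log (by positivity)
      exact_mod_cast hj1
    nlinarith [(Nat.cast_nonneg j : (0 : ℝ) ≤ j)]
  have h2i : (i : ℝ) + 1 ≤ 2 * (1 + Real.log T) := by
    have h3 : (i : ℝ) * Real.log 2 ≤ Real.log (2 * T) := by
      rw [← Real.log_pow]
      apply Real.log_le_log (by positivity)
      exact_mod_cast hi2
    rw [Real.log_mul (by norm_num) (by positivity)] at h3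
    have h4 : Real.log 2 ≤ 0.6932 := by linarith [Real.log_two_lt_d9]
    nlinarith [(Nat.cast_nonneg i : (0 : ℝ) ≤ i)]
  have hj1r : ((2 : ℝ) ^ j) ≤ N := by exact_mod_cast hj1
  have hi2r : ((2 : ℝ) ^ i) ≤ 2 * T := by exact_mod_cast hi2
  have hj0 : (0 : ℝ) ≤ j := Nat.cast_nonneg j
  have hi0 : (0 : ℝ) ≤ i := Nat.cast_nonneg i
  have hT0 : (0 : ℝ) ≤ T := Nat.cast_nonneg T
  have hN0 : (0 : ℝ) ≤ N := Nat.cast_nonneg N
  calc 4 ^ (d + 1) * (((j : ℝ) + 2) ^ (2 * d + 1) * X d c j i α) ≤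
      4 ^ (d + 1) * (((j : ℝ) + 2) ^ (2 * d + 1) * (Y * wt d j i)) := by
        gcongr
        exact h j i
    _ = 4 ^ (d + 1) * Y * ((((j : ℝ) + 2) ^ (3 * d + 3) * (j + 1) ^ 2) * (i + 1) ^ 2 *
        ((2 ^ j) ^ (d + 1) * (2 ^ i + 2 ^ j))) := by
        unfold wt
        ring
    _ ≤ 4 ^ (d + 1) * Y * ((((j : ℝ) + 2) ^ (3 * d + 3) * (j + 2) ^ 2) * (i + 1) ^ 2 *
        ((N : ℝ) ^ (d + 1) * (2 * T + N))) := by
        gcongr
        linarith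
    _ = 4 ^ (d + 1) * Y * (((j : ℝ) + 2) ^ (3 * d + 5) * (i + 1) ^ 2 *
        ((N : ℝ) ^ (d + 1) * (2 * T + N))) := by ring
    _ ≤ 4 ^ (d + 1) * Y * ((2 * (1 + Real.log N)) ^ (3 * d + 5) * (2 * (1 + Real.log T)) ^ 2 *
        ((N : ℝ) ^ (d + 1) * (2 * (N + T)))) := by
        gcongr
        linarith
    _ = _ := by
        unfold bd
        rw [mul_pow, mul_pow]
        ring

end Pool.Agent.K6.H70.MT
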