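import Pool.Agent.K6.H70.MT.Final

/-! All exponents from one even moment. -/

set_option autoImplicit false

namespace Pool.Agent.K6.H70.MT

open Finset MeasureTheory

theorem rpow_split {x l q p : ℝ} (hx : 0 ≤ x) (hl : 0 < l) (hq : 0 < q) (hqp : q ≤ p) :
    x ^ q ≤ l ^ (q - p) * x ^ p + l ^ q := by
  rcases le_or_gt x l with h | h
  · have h1 : x ^ q ≤ l ^ q := Real.rpow_le_rpow hx h hq.le
    have h2 : 0 ≤ l ^ (q - p) * x ^ p := mul_nonneg (Real.rpow_nonneg hl.le _) (Real.rpow_nonneg hx _)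
    linarith
  · have hx0 : 0 < x := hl.trans h
    have h1 : x ^ q = x ^ (q - p) * x ^ p := by
      rw [← Real.rpow_add hx0]
      congr 1
      ring
    have h2 : x ^ (q - p) ≤ l ^ (q - p) := Real.rpow_le_rpow_of_nonpos hl h.le (by linarith)
    have h3 : 0 < l ^ q := Real.rpow_pos_of_pos hl _
    rw [h1]
    have := mul_le_mul_of_nonneg_right h2 (Real.rpow_nonneg hx p)
    linarith

theorem bd_le (d : ℕ) {A ε : ℝ} (hA : 1 ≤ A) (hε : 0 < ε) : ∃ K : ℝ, 0 < K ∧ ∀ N T : ℕ, 1 ≤ N →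
    N ≤ T → (T : ℝ) ≤ (N : ℝ) ^ A → bd d N T ≤ K * (N : ℝ) ^ ε * ((N : ℝ) ^ (d + 1) * T) := by
  obtain ⟨K1, hK1, h1⟩ := log_absorb (3 * d + 5) (ε / 2) (by positivity)
  obtain ⟨K2, hK2, h2⟩ := log_absorb 2 (ε / (2 * A)) (by positivity)
  refine ⟨K1 * K2 * 2, by positivity, fun N T hN hNT hT => ?_⟩
  have hN1 : (1 : ℝ) ≤ N := by exact_mod_cast hN
  have hNT' : (N : ℝ) ≤ T := by exact_mod_cast hNT
  have h3 : (T : ℝ) ^ (ε / (2 * A)) ≤ (N : ℝ) ^ (ε / 2) := by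
    calc (T : ℝ) ^ (ε / (2 * A)) ≤ ((N : ℝ) ^ A) ^ (ε / (2 * A)) :=
          Real.rpow_le_rpow (by positivity) hT (by positivity)
      _ = _ := by
          rw [← Real.rpow_mul (by linarith)]
          congr 1
          field_simp
  have h4 : (1 + Real.log T) ^ 2 ≤ K2 * (N : ℝ) ^ (ε / 2) :=
    (h2 T (hN1.trans hNT')).trans (mul_le_mul_of_nonneg_left h3 hK2.le)
  have h5 : (N : ℝ) ^ ε = (N : ℝ) ^ (ε / 2) * (N : ℝ) ^ (ε / 2) := by
    rw [← Real.rpow_add (by linarith)]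
    congr 1
    ring
  have hlogN : 0 ≤ Real.log N := Real.log_natCast_nonneg N
  unfold bd
  calc (1 + Real.log N) ^ (3 * d + 5) * (1 + Real.log T) ^ 2 * (N : ℝ) ^ (d + 1) * (N + T) ≤
      (K1 * (N : ℝ) ^ (ε / 2)) * (K2 * (N : ℝ) ^ (ε / 2)) * (N : ℝ) ^ (d + 1) * (2 * T) := by
        gcongr
        · exact h1 N hN1
        · linarith
    _ = _ := by
        rw [h5]
        ring

theorem all_q (d : ℕ) (b : ℕ → ℕ → ℂ) (hb : ∀ j n, ‖b j n‖ ≤ 1) (α : Fin d → ℝ) {C : ℝ}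
    (h : ∀ N T : ℕ, 1 ≤ N → 1 ≤ T → ∀ u v : ℕ → ℕ, (∀ t, N ≤ u t ∧ v t ≤ 2 * N) →
      ∑ t ∈ Icc 1 T, ‖D d (b (Nat.log 2 N)) α (u t) (v t) t‖ ^ (2 * (d + 1)) ≤ C * bd d N T)
    {q A ε : ℝ} (hq : 0 < q) (hA : 1 ≤ A) (hε : 0 < ε) (hqA : q ≤ 2 * (d + 1) ∨ A ≤ d + 1) :
    ∃ K : ℝ, ∀ N T : ℕ, 1 ≤ N → N ≤ T → (T : ℝ) ≤ (N : ℝ) ^ A →
      ∀ u v : ℕ → ℕ, (∀ t, N ≤ u t ∧ v t ≤ 2 * N) → ∑ t ∈ Icc 1 T, ‖D d (b (Nat.log 2 N)) α (u t) (v t) t‖ ^ q ≤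
        K * (N : ℝ) ^ ε * ((N : ℝ) ^ q + (N : ℝ) ^ (q / 2) * T) := by
  obtain ⟨K, hK, hbd⟩ := bd_le d hA hε
  refine ⟨2 ^ (|q|) * |C| * K + 1, fun N T hN hNT hT u v huv => ?_⟩
  have hN1 : (1 : ℝ) ≤ N := by exact_mod_cast hN
  have hN0 : (0 : ℝ) < N := by linarith
  have hT0 : (0 : ℝ) ≤ T := Nat.cast_nonneg T
  have hNε : 1 ≤ (N : ℝ) ^ ε := Real.one_le_rpow hN1 hε.le
  set P : ℝ := 2 * (d + 1) with hP
  have h2q : (1 : ℝ) ≤ 2 ^ |q| := Real.one_le_rpow (by norm_num) (abs_nonneg q)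
  have hS : ∑ t ∈ Icc 1 T, ‖D d (b (Nat.log 2 N)) α (u t) (v t) t‖ ^ P ≤
      |C| * K * (N : ℝ) ^ ε * ((N : ℝ) ^ (d + 1) * T) := by
    have h1 := h N T hN (hN.trans hNT) u v huv
    have h2 : ∀ t : ℕ, ‖D d (b (Nat.log 2 N)) α (u t) (v t) t‖ ^ P =
        ‖D d (b (Nat.log 2 N)) α (u t) (v t) t‖ ^ (2 * (d + 1)) := by
      intro t
      rw [← Real.rpow_natCast]
      congr 1
      rw [hP]
      push_cast
      ring
    simp only [h2]
    have h3 : 0 ≤ bd d N T := by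
      unfold bd
      have hlogN : 0 ≤ Real.log N := Real.log_natCast_nonneg N
      have hlogT : 0 ≤ Real.log T := Real.log_natCast_nonneg T
      positivity
    calc _ ≤ C * bd d N T := h1
      _ ≤ |C| * bd d N T := mul_le_mul_of_nonneg_right (le_abs_self C) h3
      _ ≤ |C| * (K * (N : ℝ) ^ ε * ((N : ℝ) ^ (d + 1) * T)) :=
          mul_le_mul_of_nonneg_left (hbd N T hN hNT hT) (abs_nonneg C)
      _ = _ := by ring
  rcases le_or_gt q P with hqP | hqP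
  · have h1 : ∑ t ∈ Icc 1 T, ‖D d (b (Nat.log 2 N)) α (u t) (v t) t‖ ^ q ≤
        ((N : ℝ) ^ (1 / 2 : ℝ)) ^ (q - P) *
          ∑ t ∈ Icc 1 T, ‖D d (b (Nat.log 2 N)) α (u t) (v t) t‖ ^ P +
          T * ((N : ℝ) ^ (1 / 2 : ℝ)) ^ q := by
      have h2 : (T : ℝ) * ((N : ℝ) ^ (1 / 2 : ℝ)) ^ q = ∑ t ∈ Icc 1 T, ((N : ℝ) ^ (1 / 2 : ℝ)) ^ q := by
        rw [sum_const, Nat.card_Icc, nsmul_eq_mul, Nat.add_sub_cancel]
      rw [h2, mul_sum, ← sum_add_distrib]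
      exact sum_le_sum fun t _ => rpow_split (norm_nonneg _) (by positivity) hq hqP
    refine h1.trans ?_
    rw [← Real.rpow_mul hN0.le, ← Real.rpow_mul hN0.le]
    have e1 : (1 / 2 : ℝ) * q = q / 2 := by ring
    rw [e1]
    have e2 : (N : ℝ) ^ (1 / 2 * (q - P)) * (N : ℝ) ^ (d + 1) = (N : ℝ) ^ (q / 2) := by
      rw [← Real.rpow_natCast (N : ℝ) (d + 1), ← Real.rpow_add hN0]
      congr 1
      rw [hP]
      push_cast
      ring
    have hq2 : 0 ≤ (N : ℝ) ^ (q / 2) := by positivity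
    calc (N : ℝ) ^ (1 / 2 * (q - P)) *
          ∑ t ∈ Icc 1 T, ‖D d (b (Nat.log 2 N)) α (u t) (v t) t‖ ^ P + T * (N : ℝ) ^ (q / 2) ≤
        (N : ℝ) ^ (1 / 2 * (q - P)) * (|C| * K * (N : ℝ) ^ ε * ((N : ℝ) ^ (d + 1) * T)) +
          T * (N : ℝ) ^ (q / 2) := by gcongr
      _ = |C| * K * (N : ℝ) ^ ε * (((N : ℝ) ^ (1 / 2 * (q - P)) * (N : ℝ) ^ (d + 1)) * T) +
          1 * ((N : ℝ) ^ (q / 2) * T) := by ring
      _ ≤ 2 ^ |q| * |C| * K * (N : ℝ) ^ ε * ((N : ℝ) ^ q + (N : ℝ) ^ (q / 2) * T) +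
          1 * (N : ℝ) ^ ε * ((N : ℝ) ^ q + (N : ℝ) ^ (q / 2) * T) := by
        rw [e2]
        apply add_le_add
        · have : |C| * K * (N : ℝ) ^ ε ≤ 2 ^ |q| * |C| * K * (N : ℝ) ^ ε := by
            have : 0 ≤ |C| * K * (N : ℝ) ^ ε := by positivity
            nlinarith
          apply mul_le_mul this _ (by positivity) (by positivity)
          linarith [Real.rpow_nonneg hN0.le q]
        · rw [one_mul, one_mul]
          have : 0 ≤ (N : ℝ) ^ q := by positivity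
          have h5 : 0 ≤ (N : ℝ) ^ (q / 2) * T := by positivity
          nlinarith
      _ = _ := by ring
  · have hA' : A ≤ d + 1 := by
      rcases hqA with h1 | h1
      · exact absurd h1 (not_le.2 hqP)
      · exact h1
    have h1 : ∑ t ∈ Icc 1 T, ‖D d (b (Nat.log 2 N)) α (u t) (v t) t‖ ^ q ≤
        (2 * (N : ℝ)) ^ (q - P) * ∑ t ∈ Icc 1 T, ‖D d (b (Nat.log 2 N)) α (u t) (v t) t‖ ^ P := by
      rw [mul_sum]
      apply sum_le_sum
      intro t _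
      have h2 := norm_D_le d (b (Nat.log 2 N)) (hb _) α hN (huv t).1 (huv t).2 (t : ℝ)
      rcases (norm_nonneg (D d (b (Nat.log 2 N)) α (u t) (v t) t)).eq_or_lt with h3 | h3
      · rw [← h3, Real.zero_rpow (by linarith)]
        positivity
      · have h4 : ‖D d (b (Nat.log 2 N)) α (u t) (v t) t‖ ^ q =
            ‖D d (b (Nat.log 2 N)) α (u t) (v t) t‖ ^ (q - P) *
              ‖D d (b (Nat.log 2 N)) α (u t) (v t) t‖ ^ P := by
          rw [← Real.rpow_add h3]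
          congr 1
          ring
        rw [h4]
        apply mul_le_mul_of_nonneg_right _ (Real.rpow_nonneg h3.le _)
        exact Real.rpow_le_rpow h3.le h2 (by linarith)
    refine h1.trans ?_
    rw [Real.mul_rpow (by norm_num) hN0.le]
    have hTd : (T : ℝ) ≤ (N : ℝ) ^ ((d : ℝ) + 1) :=
      hT.trans (Real.rpow_le_rpow_of_exponent_le hN1 hA')
    have e2 : (N : ℝ) ^ (q - P) * ((N : ℝ) ^ (d + 1) * (N : ℝ) ^ ((d : ℝ) + 1)) = (N : ℝ) ^ q := by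
      rw [← Real.rpow_natCast (N : ℝ) (d + 1), ← Real.rpow_add hN0, ← Real.rpow_add hN0]
      congr 1
      rw [hP]
      push_cast
      ring
    have hd0 : (0 : ℝ) ≤ d := Nat.cast_nonneg d
    have e3 : (2 : ℝ) ^ (q - P) ≤ 2 ^ |q| :=
      Real.rpow_le_rpow_of_exponent_le (by norm_num) (by linarith [le_abs_self q])
    calc 2 ^ (q - P) * (N : ℝ) ^ (q - P) *
          ∑ t ∈ Icc 1 T, ‖D d (b (Nat.log 2 N)) α (u t) (v t) t‖ ^ P ≤
        2 ^ |q| * (N : ℝ) ^ (q - P) * (|C| * K * (N : ℝ) ^ ε * ((N : ℝ) ^ (d + 1) *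
          (N : ℝ) ^ ((d : ℝ) + 1))) := by
          gcongr
          refine hS.trans ?_
          gcongr
      _ = 2 ^ |q| * |C| * K * (N : ℝ) ^ ε * ((N : ℝ) ^ (q - P) * ((N : ℝ) ^ (d + 1) *
          (N : ℝ) ^ ((d : ℝ) + 1))) := by ring
      _ = 2 ^ |q| * |C| * K * (N : ℝ) ^ ε * (N : ℝ) ^ q := by rw [e2]
      _ ≤ (2 ^ |q| * |C| * K + 1) * (N : ℝ) ^ ε * ((N : ℝ) ^ q + (N : ℝ) ^ (q / 2) * T) := by
          gcongr
          · linarith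
          · have : 0 ≤ (N : ℝ) ^ (q / 2) * T := by positivity
            linarith

end Pool.Agent.K6.H70.MT
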