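import Pool.Agent.K6.H70.MT.Newton

/-! The sum of a kernel over the pairs of tuples with equal power sums up to `k - 1`. -/

set_option autoImplicit false

namespace Pool.Agent.K6.H70.MT

open Finset Polynomial

/-- the first `d` power sums of `m` and `n` agree -/
def EqP (d : ℕ) (m n : Fin (d + 1) → ℤ) : Prop :=
  ∀ j, 1 ≤ j → j < d + 1 → ∑ i, m i ^ j = ∑ i, n i ^ j

noncomputable instance (d : ℕ) (m n : Fin (d + 1) → ℤ) : Decidable (EqP d m n) :=
  Classical.propDecidable _

variable {d : ℕ}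

theorem EqP.prod {m n : Fin (d + 1) → ℤ} (h : EqP d m n) (z : ℤ) :
    ∏ i, (z - n i) - ∏ i, (z - m i) = ∏ i, (m 0 - n i) := by
  have h1 := prod_sub_const n m (fun j h1 h2 => (h j h1 h2).symm) z (m 0)
  have h2 : ∏ i, (m 0 - m i) = 0 := prod_eq_zero (mem_univ 0) (sub_self _)
  rw [h2, sub_zero] at h1
  exact h1

theorem EqP.prodEq {m n : Fin (d + 1) → ℤ} (h : EqP d m n) :
    |∏ i, n i - ∏ i, m i| = |∏ i, (m 0 - n i)| := by
  have h1 := h.prod 0
  have h2 : ∀ x : Fin (d + 1) → ℤ, ∏ i, (0 - x i) = (-1) ^ (d + 1) * ∏ i, x i := by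
    intro x
    rw [← Fin.prod_const, ← prod_mul_distrib]
    exact prod_congr rfl fun i _ => by ring
  rw [h2, h2, ← mul_sub] at h1
  rw [← h1, abs_mul, abs_pow, abs_neg, abs_one, one_pow, one_mul]

/-- few tuples with given power sums and given first entry -/
theorem fiber_card (A : Finset (Fin (d + 1) → ℤ)) (n : Fin (d + 1) → ℤ) (x : ℤ) :
    (A.filter (fun m => EqP d m n ∧ m 0 = x)).card ≤ (d + 1) ^ (d + 1) := by
  classical
  set P : ℤ[X] := ∏ i, (X - C (n i)) - C (∏ i, (x - n i)) with hP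
  have hd1 : (∏ i, (X - C (n i)) : ℤ[X]).natDegree = d + 1 := by
    rw [natDegree_prod_of_monic _ _ fun i _ => monic_X_sub_C _]
    simp only [natDegree_X_sub_C, sum_const, card_univ, Fintype.card_fin, smul_eq_mul, mul_one]
  have hPn : P.natDegree = d + 1 := by
    rw [hP, natDegree_sub_C, hd1]
  have hP0 : P ≠ 0 := by
    intro h
    rw [h, natDegree_zero] at hPn
    omega
  have hsub : A.filter (fun m => EqP d m n ∧ m 0 = x) ⊆
      Fintype.piFinset (fun _ : Fin (d + 1) => P.roots.toFinset) := by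
    intro m hm
    rw [mem_filter] at hm
    obtain ⟨-, h, hx⟩ := hm
    rw [Fintype.mem_piFinset]
    intro i
    rw [Multiset.mem_toFinset, mem_roots hP0, IsRoot, hP]
    have h1 := h.prod (m i)
    have h2 : ∏ j, (m i - m j) = 0 := prod_eq_zero (mem_univ i) (sub_self _)
    rw [h2, sub_zero, hx] at h1
    simp only [eval_sub, eval_prod, eval_X, eval_C]
    rw [h1, sub_self]
  refine (card_le_card hsub).trans ?_
  rw [Fintype.card_piFinset_const]
  apply Nat.pow_le_pow_left
  calc P.roots.toFinset.card ≤ Multiset.card P.roots := Multiset.toFinset_card_le _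
    _ ≤ P.natDegree := card_roots' _
    _ = d + 1 := hPn

/-- **The sum over the pairs.** -/
theorem pair_sum (J : Finset ℤ) (K : (Fin (d + 1) → ℤ) → (Fin (d + 1) → ℤ) → ℝ) {R Z L : ℝ}
    (hR : 0 ≤ R) (hZ : 0 ≤ Z) (hK1 : ∀ n m, K n m ≤ R ^ 2)
    (hK2 : ∀ n m, (∀ i, n i ∈ J) → (∀ i, m i ∈ J) → ∏ i, n i ≠ ∏ i, m i →
      K n m ≤ R * Z / |((∏ i, n i - ∏ i, m i : ℤ) : ℝ)|)
    (_hL0 : 0 ≤ L)
    (hL : ∀ x ∈ J, ∑ n ∈ J, (if n = x then (0 : ℝ) else 1 / |((x - n : ℤ) : ℝ)|) ≤ L) :
    ∑ n ∈ Fintype.piFinset (fun _ : Fin (d + 1) => J),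
      ∑ m ∈ (Fintype.piFinset (fun _ : Fin (d + 1) => J)).filter (fun m => EqP d m n), K n m ≤
    (d + 1 : ℝ) ^ (d + 1) * ((d + 1) * (J.card : ℝ) ^ (d + 1) * R ^ 2 +
      R * Z * (J.card * L ^ (d + 1))) := by
  classical
  set A := Fintype.piFinset (fun _ : Fin (d + 1) => J) with hA
  -- the bound for one pair
  set κ : (Fin (d + 1) → ℤ) → ℤ → ℝ := fun n x =>
    (if ∏ i, (x - n i) = 0 then R ^ 2 else 0) +
      R * Z * ∏ i, (if n i = x then (0 : ℝ) else 1 / |((x - n i : ℤ) : ℝ)|) with hκ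
  have hprodnn : ∀ (n : Fin (d + 1) → ℤ) (x : ℤ), 0 ≤ ∏ i, (if n i = x then (0 : ℝ) else 1 / |((x - n i : ℤ) : ℝ)|) := by
    intro n x
    apply prod_nonneg
    intro i _
    split_ifs
    · exact le_rfl
    · positivity
  have hκ0 : ∀ n x, 0 ≤ κ n x := by
    intro n x
    have := hprodnn n x
    have h1 : (0 : ℝ) ≤ if ∏ i, (x - n i) = 0 then R ^ 2 else 0 := by split_ifs <;> positivity
    exact add_nonneg h1 (mul_nonneg (mul_nonneg hR hZ) this)
  have hone : ∀ n ∈ A, ∀ m ∈ A, EqP d m n → K n m ≤ κ n (m 0) := by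
    intro n hn m hm h
    rw [hA, Fintype.mem_piFinset] at hn hm
    by_cases h0 : ∏ i, (m 0 - n i) = 0
    · simp only [hκ, h0, if_true]
      have := mul_nonneg (mul_nonneg hR hZ) (hprodnn n (m 0))
      linarith [hK1 n m]
    · have h1 := h.prodEq
      have h2 : ∏ i, n i ≠ ∏ i, m i := by
        intro h3
        rw [h3, sub_self, abs_zero, eq_comm, abs_eq_zero] at h1
        exact h0 h1
      have h3 := hK2 n m hn hm h2
      have hne : ∀ i, n i ≠ m 0 := by
        intro i hi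
        exact h0 (prod_eq_zero (mem_univ i) (by rw [hi, sub_self]))
      simp only [hκ, h0, if_false, zero_add]
      refine h3.trans (le_of_eq ?_)
      have h4 : ∏ i, (if n i = m 0 then (0 : ℝ) else 1 / |((m 0 - n i : ℤ) : ℝ)|) =
          1 / |((∏ i, (m 0 - n i) : ℤ) : ℝ)| := by
        rw [Int.cast_prod, abs_prod, one_div, ← prod_inv_distrib]
        exact prod_congr rfl fun i _ => by rw [if_neg (hne i), one_div]
      rw [h4]
      have h5 : |((∏ i, n i - ∏ i, m i : ℤ) : ℝ)| = |((∏ i, (m 0 - n i) : ℤ) : ℝ)| := by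
        rw [← Int.cast_abs, ← Int.cast_abs, h1]
      rw [h5]
      ring
  -- the sum over `m`
  have hinner : ∀ n ∈ A, ∑ m ∈ A.filter (fun m => EqP d m n), K n m ≤
      (d + 1 : ℝ) ^ (d + 1) * ∑ x ∈ J, κ n x := by
    intro n hn
    calc ∑ m ∈ A.filter (fun m => EqP d m n), K n m
        ≤ ∑ m ∈ A.filter (fun m => EqP d m n), κ n (m 0) := by
          apply sum_le_sum
          intro m hm
          rw [mem_filter] at hm
          exact hone n hn m hm.1 hm.2
      _ = ∑ x ∈ J, ∑ m ∈ (A.filter (fun m => EqP d m n)).filter (fun m => m 0 = x), κ n (m 0) := by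
          rw [sum_fiberwise_of_maps_to]
          intro m hm
          rw [mem_filter, hA, Fintype.mem_piFinset] at hm
          exact hm.1 0
      _ = ∑ x ∈ J, ((A.filter (fun m => EqP d m n ∧ m 0 = x)).card : ℝ) * κ n x := by
          apply sum_congr rfl
          intro x _
          rw [filter_filter, ← nsmul_eq_mul]
          rw [← sum_const]
          apply sum_congr rfl
          intro m hm
          rw [mem_filter] at hm
          rw [hm.2.2]
      _ ≤ ∑ x ∈ J, (d + 1 : ℝ) ^ (d + 1) * κ n x := by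
          apply sum_le_sum
          intro x _
          apply mul_le_mul_of_nonneg_right _ (hκ0 n x)
          exact_mod_cast fiber_card A n x
      _ = _ := by rw [mul_sum]
  -- the two parts
  have hp1 : ∀ n ∈ A, ∑ x ∈ J, (if ∏ i, (x - n i) = 0 then R ^ 2 else 0) ≤ (d + 1) * R ^ 2 := by
    intro n _
    rw [← sum_filter, sum_const, nsmul_eq_mul]
    apply mul_le_mul_of_nonneg_right _ (by positivity)
    have : (J.filter fun x => ∏ i, (x - n i) = 0) ⊆ univ.image n := by
      intro x hx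
      rw [mem_filter, prod_eq_zero_iff] at hx
      obtain ⟨-, i, -, hi⟩ := hx
      rw [mem_image]
      exact ⟨i, mem_univ _, by omega⟩
    have h2 := (card_le_card this).trans card_image_le
    rw [card_univ, Fintype.card_fin] at h2
    exact_mod_cast h2
  have hp2 : ∀ x ∈ J, ∑ n ∈ A, ∏ i, (if n i = x then (0 : ℝ) else 1 / |((x - n i : ℤ) : ℝ)|) ≤
      L ^ (d + 1) := by
    intro x hx
    have h1 : ∑ n ∈ A, ∏ i, (if n i = x then (0 : ℝ) else 1 / |((x - n i : ℤ) : ℝ)|) =
        (∑ n ∈ J, (if n = x then (0 : ℝ) else 1 / |((x - n : ℤ) : ℝ)|)) ^ (d + 1) := by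
      have h2 := Finset.prod_univ_sum (fun _ : Fin (d + 1) => J)
        (fun (_ : Fin (d + 1)) (n : ℤ) => if n = x then (0 : ℝ) else 1 / |((x - n : ℤ) : ℝ)|)
      rw [prod_const, card_univ, Fintype.card_fin] at h2
      rw [hA, h2]
    rw [h1]
    apply pow_le_pow_left₀ _ (hL x hx)
    apply sum_nonneg
    intro n _
    split_ifs
    · exact le_rfl
    · positivity
  calc ∑ n ∈ A, ∑ m ∈ A.filter (fun m => EqP d m n), K n m
      ≤ ∑ n ∈ A, (d + 1 : ℝ) ^ (d + 1) * ∑ x ∈ J, κ n x := sum_le_sum hinner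
    _ = (d + 1 : ℝ) ^ (d + 1) * (∑ n ∈ A, ∑ x ∈ J, (if ∏ i, (x - n i) = 0 then R ^ 2 else 0) +
        R * Z * ∑ x ∈ J, ∑ n ∈ A, ∏ i, (if n i = x then (0 : ℝ) else 1 / |((x - n i : ℤ) : ℝ)|)) := by
        rw [← mul_sum]
        congr 1
        rw [sum_comm (s := J) (t := A), mul_sum, ← sum_add_distrib]
        apply sum_congr rfl
        intro n _
        rw [mul_sum, ← sum_add_distrib]
    _ ≤ _ := by
        apply mul_le_mul_of_nonneg_left _ (by positivity)
        apply add_le_add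
        · calc ∑ n ∈ A, ∑ x ∈ J, (if ∏ i, (x - n i) = 0 then R ^ 2 else 0)
              ≤ ∑ n ∈ A, (d + 1) * R ^ 2 := sum_le_sum hp1
            _ = _ := by
                rw [sum_const, nsmul_eq_mul, hA, Fintype.card_piFinset_const]
                push_cast
                ring
        · apply mul_le_mul_of_nonneg_left _ (mul_nonneg hR hZ)
          calc _ ≤ ∑ x ∈ J, L ^ (d + 1) := sum_le_sum hp2
            _ = _ := by rw [sum_const, nsmul_eq_mul]

end Pool.Agent.K6.H70.MT
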