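import Mathlib

/-! Initial segments as sums of dyadic blocks. -/

set_option autoImplicit false

namespace Pool.Agent.K6.H70.MT

open Finset

/-- the sum over the dyadic block `[a 2^i, (a+1) 2^i)` -/
noncomputable def blk (f : ℕ → ℂ) (i a : ℕ) : ℂ := ∑ r ∈ Ico (a * 2 ^ i) ((a + 1) * 2 ^ i), f r

theorem exists_dec (L : ℕ) : ∀ (f : ℕ → ℂ) (R : ℕ), R < 2 ^ L → ∃ e : ℕ → ℂ,
    ∑ r ∈ range R, f r = ∑ i ∈ range L, e i ∧
    ∀ i < L, e i = 0 ∨ ∃ a < 2 ^ (L - i), e i = blk f i a := by
  induction L with
  | zero =>
    intro f R hR
    have : R = 0 := by simpa using hR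
    subst this
    exact ⟨fun _ => 0, by simp, fun i hi => absurd hi (by omega)⟩
  | succ L ih =>
    intro f R hR
    rcases Nat.lt_or_ge R (2 ^ L) with h | h
    · obtain ⟨e, he1, he2⟩ := ih f R h
      refine ⟨fun i => if i < L then e i else 0, ?_, ?_⟩
      · rw [he1, sum_range_succ]
        simp only [lt_irrefl, if_false, add_zero]
        exact sum_congr rfl fun i hi => by rw [if_pos (mem_range.1 hi)]
      · intro i hi
        simp only
        split_ifs with h3
        · rcases he2 i h3 with h4 | ⟨a, ha, h4⟩
          · exact Or.inl h4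
          · refine Or.inr ⟨a, lt_of_lt_of_le ha ?_, h4⟩
            exact Nat.pow_le_pow_right (by norm_num) (by omega)
        · exact Or.inl rfl
    · set R' := R - 2 ^ L with hR'
      have hR'lt : R' < 2 ^ L := by
        rw [pow_succ] at hR
        omega
      obtain ⟨e, he1, he2⟩ := ih (fun r => f (2 ^ L + r)) R' hR'lt
      refine ⟨fun i => if i < L then e i else blk f L 0, ?_, ?_⟩
      · rw [sum_range_succ]
        simp only [lt_irrefl, if_false]
        have h5 : ∑ i ∈ range L, (if i < L then e i else blk f L 0) = ∑ i ∈ range L, e i :=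
          sum_congr rfl fun i hi => by rw [if_pos (mem_range.1 hi)]
        rw [h5, ← he1, blk]
        have h6 : R = 2 ^ L + R' := by omega
        rw [h6, sum_range_add, add_comm]
        congr 1
        rw [zero_mul, zero_add, one_mul, Nat.Ico_zero_eq_range]
      · intro i hi
        simp only
        split_ifs with h3
        · rcases he2 i h3 with h4 | ⟨a, ha, h4⟩
          · exact Or.inl h4
          · refine Or.inr ⟨a + 2 ^ (L - i), ?_, ?_⟩
            · have : L + 1 - i = (L - i) + 1 := by omega
              rw [this, pow_succ]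
              omega
            · rw [h4]
              unfold blk
              have hp : 2 ^ (L - i) * 2 ^ i = 2 ^ L := by
                rw [← pow_add]; congr 1; omega
              have e1 : (a + 2 ^ (L - i)) * 2 ^ i = 2 ^ L + a * 2 ^ i := by
                rw [add_mul, hp]; ring
              have e2 : (a + 2 ^ (L - i) + 1) * 2 ^ i = 2 ^ L + (a + 1) * 2 ^ i := by
                rw [add_right_comm, add_mul, hp]; ring
              rw [e1, e2, Finset.sum_Ico_eq_sum_range, Finset.sum_Ico_eq_sum_range]
              have e3 : 2 ^ L + (a + 1) * 2 ^ i - (2 ^ L + a * 2 ^ i) = (a + 1) * 2 ^ i - a * 2 ^ i := by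
                omega
              rw [e3]
              exact sum_congr rfl fun r _ => by rw [add_assoc]
        · have : i = L := by omega
          subst this
          exact Or.inr ⟨0, by positivity, rfl⟩

end Pool.Agent.K6.H70.MT
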