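import Pool.Agent.K6.H70.MT.Ae

/-! From the cube to the whole space, and all exponents. -/

set_option autoImplicit false

namespace Pool.Agent.K6.H70.MT

open Finset MeasureTheory

theorem ev_add_int {d : ℕ} (α : Fin d → ℝ) (z v : Fin d → ℤ) :
    ev (α + fun j => (z j : ℝ)) v = ev α v := by
  unfold ev
  have h : (∑ j, (α + fun j => (z j : ℝ)) j * v j : ℝ) = ∑ j, α j * v j + ((∑ j, z j * v j : ℤ) : ℝ) := by
    push_cast
    rw [← sum_add_distrib]
    apply sum_congr rfl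
    intro j _
    simp only [Pi.add_apply]
    ring
  rw [h, Complex.ofReal_add, mul_add, Complex.exp_add]
  have h2 : Complex.exp (2 * Real.pi * Complex.I * (((∑ j, z j * v j : ℤ) : ℝ) : ℂ)) = 1 := by
    rw [Complex.exp_eq_one_iff]
    exact ⟨∑ j, z j * v j, by push_cast; ring⟩
  rw [h2, mul_one]

theorem D_add_int (d : ℕ) (b : ℕ → ℂ) (α : Fin d → ℝ) (z : Fin d → ℤ) (u v : ℕ) (t : ℝ) :
    D d b (α + fun j => (z j : ℝ)) u v t = D d b α u v t := by
  unfold D
  simp only [ev_add_int]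

/-- a periodic property true almost everywhere on the cube is true almost everywhere -/
theorem ae_of_cube {d : ℕ} (P : (Fin d → ℝ) → Prop)
    (hP : ∀ (α : Fin d → ℝ) (z : Fin d → ℤ), P (α + fun j => (z j : ℝ)) → P α)
    (h : ∀ᵐ α ∂(volume.restrict (cube d)), P α) : ∀ᵐ α : Fin d → ℝ, P α := by
  rw [ae_restrict_iff' (measurableSet_cube d)] at h
  rw [ae_iff] at h ⊢
  set S : Set (Fin d → ℝ) := {α | ¬ (α ∈ cube d → P α)} with hS
  have h1 : {α : Fin d → ℝ | ¬ P α} ⊆ ⋃ z : Fin d → ℤ, (fun α => α + fun j => (z j : ℝ)) ⁻¹' S := by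
    intro α hα
    rw [Set.mem_iUnion]
    refine ⟨fun j => 1 - ⌈α j⌉, ?_⟩
    rw [Set.mem_preimage, hS, Set.mem_ofPred_eq]
    intro h2
    apply hα
    apply hP α _ (h2 _)
    unfold cube
    rw [Set.mem_univ_pi]
    intro j
    simp only [Pi.add_apply]
    push_cast
    have h3 := Int.ceil_lt_add_one (α j)
    have h4 := Int.le_ceil (α j)
    constructor <;> linarith
  apply measure_mono_null h1
  rw [measure_iUnion_null_iff]
  intro z
  rw [measure_preimage_add_right]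
  exact h

theorem ae_bd (d : ℕ) (b : ℕ → ℕ → ℂ) (hb : ∀ j n, ‖b j n‖ ≤ 1) :
    ∀ᵐ α : Fin d → ℝ, ∃ C : ℝ, ∀ N T : ℕ, 1 ≤ N → 1 ≤ T → ∀ u v : ℕ → ℕ, (∀ t, N ≤ u t ∧ v t ≤ 2 * N) →
      ∑ t ∈ Icc 1 T, ‖D d (b (Nat.log 2 N)) α (u t) (v t) t‖ ^ (2 * (d + 1)) ≤ C * bd d N T := by
  apply ae_of_cube
  · intro α z h
    simpa only [D_add_int] using h
  · have h := ae_X d (fun j n => b j n.toNat) (fun j n => hb j _)
    filter_upwards [h] with α hα
    obtain ⟨Y, hY, h1⟩ := hα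
    exact of_X d (fun j n => b j n.toNat) b (fun j n => by simp) α hY h1

theorem norm_D_le (d : ℕ) (b : ℕ → ℂ) (hb : ∀ n, ‖b n‖ ≤ 1) (α : Fin d → ℝ) {N u v : ℕ}
    (hN : 1 ≤ N) (hu : N ≤ u) (hv : v ≤ 2 * N) (t : ℝ) : ‖D d b α u v t‖ ≤ 2 * N := by
  unfold D
  refine (norm_sum_le _ _).trans ?_
  have h1 : ∀ n ∈ Icc u v, ‖b n * ev α (vv d n) * Complex.exp (Complex.I * t * Real.log n)‖ ≤ 1 := by
    intro n _
    rw [norm_mul, norm_mul, norm_ev, mul_one]
    have : Complex.I * (t : ℂ) * (Real.log n : ℂ) = ((t * Real.log n : ℝ) : ℂ) * Complex.I := by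
      push_cast; ring
    rw [this, Complex.norm_exp_ofReal_mul_I, mul_one]
    exact hb n
  refine (sum_le_sum h1).trans ?_
  rw [sum_const, nsmul_eq_mul, mul_one, Nat.card_Icc]
  have : v + 1 - u ≤ 2 * N := by omega
  exact_mod_cast this

/-- logarithms are absorbed by `N^ε` -/
theorem log_absorb (m : ℕ) (ε : ℝ) (hε : 0 < ε) : ∃ K : ℝ, 0 < K ∧ ∀ x : ℝ, 1 ≤ x →
    (1 + Real.log x) ^ m ≤ K * x ^ ε := by
  rcases Nat.eq_zero_or_pos m with rfl | hm
  · exact ⟨1, one_pos, fun x hx => by simpa using Real.one_le_rpow hx hε.le⟩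
  have hm' : (0 : ℝ) < m := by exact_mod_cast hm
  refine ⟨(1 + m / ε) ^ m, by positivity, fun x hx => ?_⟩
  have h1 : Real.log x ≤ x ^ (ε / m) / (ε / m) := Real.log_le_rpow_div (by linarith) (by positivity)
  have h2 : (1 : ℝ) ≤ x ^ (ε / m) := Real.one_le_rpow hx (by positivity)
  have h3 : 1 + Real.log x ≤ (1 + m / ε) * x ^ (ε / m) := by
    calc 1 + Real.log x ≤ x ^ (ε / m) + x ^ (ε / m) / (ε / m) := add_le_add h2 h1
      _ = _ := by field_simp
  calc (1 + Real.log x) ^ m ≤ ((1 + m / ε) * x ^ (ε / m)) ^ m := by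
        apply pow_le_pow_left₀ _ h3
        linarith [Real.log_nonneg hx]
    _ = _ := by
        rw [mul_pow]
        congr 1
        rw [← Real.rpow_natCast, ← Real.rpow_mul (by linarith)]
        congr 1
        field_simp

end Pool.Agent.K6.H70.MT
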