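import Pool.Agent.K6.H70.MT.Mean2
import Pool.Agent.K6.H70.MT.Dyadic

/-! The maximal function over all initial segments at one dyadic scale. -/

set_option autoImplicit false

namespace Pool.Agent.K6.H70.MT

open Finset MeasureTheory

/-- the block of integers `2^j + r`, `a 2^i ≤ r < (a+1) 2^i` -/
def bs (j i a : ℕ) : Finset ℤ :=
  (Ico (a * 2 ^ i) ((a + 1) * 2 ^ i)).image fun r : ℕ => (2 ^ j + r : ℤ)

theorem bs_inj (j : ℕ) : Function.Injective fun r : ℕ => (2 ^ j + r : ℤ) := by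
  intro x y h
  simp only at h
  omega

theorem card_bs (j i a : ℕ) : (bs j i a).card = 2 ^ i := by
  unfold bs
  rw [card_image_of_injective _ (bs_inj j), Nat.card_Ico, add_mul, one_mul, Nat.add_sub_cancel_left]

theorem mem_bs {j i a : ℕ} {n : ℤ} (h : n ∈ bs j i a) :
    (2 : ℤ) ^ j + a * 2 ^ i ≤ n ∧ n < 2 ^ j + (a + 1) * 2 ^ i := by
  unfold bs at h
  rw [mem_image] at h
  obtain ⟨r, hr, rfl⟩ := h
  rw [mem_Ico] at hr
  have h1 : ((a * 2 ^ i : ℕ) : ℤ) ≤ r := by exact_mod_cast hr.1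
  have h2 : (r : ℤ) < (((a + 1) * 2 ^ i : ℕ) : ℤ) := by exact_mod_cast hr.2
  push_cast at h1 h2
  constructor <;> linarith

/-- the terms of the twisted polynomial at scale `j` -/
noncomputable def tm (d : ℕ) (c : ℤ → ℂ) (α : Fin d → ℝ) (t : ℝ) (j r : ℕ) : ℂ :=
  c (2 ^ j + r : ℤ) * Complex.exp (Complex.I * ((t * Real.log ((2 ^ j + r : ℤ) : ℝ) : ℝ) : ℂ)) *
    ev α (vv d (2 ^ j + r : ℤ))

theorem blk_tm (d : ℕ) (c : ℤ → ℂ) (α : Fin d → ℝ) (t : ℝ) (j i a : ℕ) :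
    blk (tm d c α t j) i a = F d (bs j i a) c α t := by
  unfold blk F bs
  rw [sum_image (fun x _ y _ h => bs_inj j h)]
  rfl

/-- the sum of all the blocks at scale `j` -/
noncomputable def W (d : ℕ) (c : ℤ → ℂ) (α : Fin d → ℝ) (t : ℝ) (j : ℕ) : ℝ :=
  ∑ i ∈ range (j + 2), ∑ a ∈ range (2 ^ (j + 2 - i)), ‖F d (bs j i a) c α t‖ ^ (2 * (d + 1))

theorem W_nonneg (d : ℕ) (c : ℤ → ℂ) (α : Fin d → ℝ) (t : ℝ) (j : ℕ) : 0 ≤ W d c α t j :=
  sum_nonneg fun _ _ => sum_nonneg fun _ _ => by positivity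

theorem seg_le (d : ℕ) (c : ℤ → ℂ) (α : Fin d → ℝ) (t : ℝ) (j R : ℕ) (hR : R < 2 ^ (j + 2)) :
    ‖∑ r ∈ range R, tm d c α t j r‖ ^ (2 * (d + 1)) ≤
      ((j : ℝ) + 2) ^ (2 * d + 1) * W d c α t j := by
  obtain ⟨e, he1, he2⟩ := exists_dec (j + 2) (tm d c α t j) R hR
  rw [he1]
  have h1 : ‖∑ i ∈ range (j + 2), e i‖ ^ (2 * (d + 1)) ≤
      (∑ i ∈ range (j + 2), ‖e i‖) ^ (2 * (d + 1)) :=
    pow_le_pow_left₀ (norm_nonneg _) (norm_sum_le _ _) _
  have h2 : (∑ i ∈ range (j + 2), ‖e i‖) ^ (2 * d + 1 + 1) ≤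
      ((range (j + 2)).card : ℝ) ^ (2 * d + 1) * ∑ i ∈ range (j + 2), ‖e i‖ ^ (2 * d + 1 + 1) :=
    pow_sum_le_card_mul_sum_pow (fun i _ => norm_nonneg _) _
  have h3 : 2 * (d + 1) = 2 * d + 1 + 1 := by ring
  rw [h3] at h1 ⊢
  refine h1.trans (h2.trans ?_)
  rw [card_range]
  push_cast
  apply mul_le_mul_of_nonneg_left _ (by positivity)
  unfold W
  apply sum_le_sum
  intro i hi
  rw [mem_range] at hi
  rcases he2 i hi with h4 | ⟨a, ha, h4⟩
  · rw [h4, norm_zero, zero_pow (by omega)]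
    exact sum_nonneg fun _ _ => by positivity
  · rw [h4, blk_tm, ← h3]
    exact single_le_sum (f := fun a => ‖F d (bs j i a) c α t‖ ^ (2 * (d + 1)))
      (fun _ _ => by positivity) (mem_range.2 ha)

/-- the constant in the mean value of `W` -/
noncomputable def KK (d : ℕ) : ℝ :=
  2 * (d + 1 : ℝ) ^ (d + 1) * (2 * (d + 1) ^ 2 * 4 ^ (d + 1) +
    4 * Real.pi * (d + 1) * 10 ^ (d + 1))

theorem KK_pos (d : ℕ) : 0 < KK d := by
  unfold KK
  positivity

theorem int_W (d : ℕ) (c : ℤ → ℂ) (hc : ∀ n, ‖c n‖ ≤ 1) (j T : ℕ) (hT : 1 ≤ T) :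
    ∑ t ∈ Icc 1 T, ∫ α in cube d, W d c α t j ≤
      KK d * ((j : ℝ) + 2) ^ (d + 2) * (2 ^ j) ^ (d + 1) * (T + 2 ^ j) := by
  have h1 : ∀ t : ℕ, ∫ α in cube d, W d c α t j = ∑ i ∈ range (j + 2),
      ∑ a ∈ range (2 ^ (j + 2 - i)), ∫ α in cube d, ‖F d (bs j i a) c α t‖ ^ (2 * (d + 1)) := by
    intro t
    unfold W
    rw [integral_finsetSum]
    · apply sum_congr rfl
      intro i _
      rw [integral_finsetSum]
      intro a _
      exact integrable_F d _ c t _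
    · intro i _
      apply integrable_finsetSum
      intro a _
      exact integrable_F d _ c t _
  simp only [h1]
  rw [sum_comm]
  have h2 : ∀ i ∈ range (j + 2), ∑ t ∈ Icc 1 T, ∑ a ∈ range (2 ^ (j + 2 - i)),
      ∫ α in cube d, ‖F d (bs j i a) c α t‖ ^ (2 * (d + 1)) ≤
      KK d * ((j : ℝ) + 2) ^ (d + 1) * (2 ^ j) ^ (d + 1) * (T + 2 ^ j) := by
    intro i hi
    rw [mem_range] at hi
    rw [sum_comm]
    have h3 : ∀ a ∈ range (2 ^ (j + 2 - i)), ∑ t ∈ Icc 1 T,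
        ∫ α in cube d, ‖F d (bs j i a) c α t‖ ^ (2 * (d + 1)) ≤
        2 * (d + 1 : ℝ) ^ (d + 1) * (2 * (d + 1) ^ 2 * T * ((2 : ℝ) ^ i) ^ (d + 1) +
        Real.pi * (d + 1) * (5 * 2 ^ j) ^ (d + 1) * (2 ^ i * (2 * (j + 2)) ^ (d + 1))) := by
      intro a ha
      rw [mem_range] at ha
      have hb : (1 : ℤ) ≤ 2 ^ j := one_le_pow₀ (by norm_num)
      have hai : ((a : ℤ) + 1) * 2 ^ i ≤ 4 * 2 ^ j := by
        have : (a + 1) * 2 ^ i ≤ 2 ^ (j + 2 - i) * 2 ^ i := Nat.mul_le_mul_right _ ha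
        rw [← pow_add, Nat.sub_add_cancel (by omega)] at this
        have h5 : (((a + 1) * 2 ^ i : ℕ) : ℤ) ≤ ((2 ^ (j + 2) : ℕ) : ℤ) := by exact_mod_cast this
        push_cast at h5
        rw [pow_add] at h5
        linarith
      have h4 := mean d (bs j i a) c (fun n _ => hc n) (b := 2 ^ j) (B := 5 * 2 ^ j) hb
        (by linarith) (fun n hn => by
          have := mem_bs hn
          have h0 : (0 : ℤ) ≤ a * 2 ^ i := by positivity
          constructor <;> linarith) (H := 2 ^ i) Nat.one_le_two_pow (fun x hx y hy => by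
          have h6 := mem_bs hx
          have h7 := mem_bs hy
          rw [abs_le]
          push_cast
          constructor <;> linarith) hT
      rw [card_bs] at h4
      push_cast at h4
      refine h4.trans ?_
      apply mul_le_mul_of_nonneg_left _ (by positivity)
      apply add_le_add le_rfl
      apply mul_le_mul_of_nonneg_left _ (by positivity)
      apply mul_le_mul_of_nonneg_left _ (by positivity)
      have hlog : 0 ≤ Real.log (2 ^ i) := Real.log_nonneg (one_le_pow₀ (by norm_num))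
      apply pow_le_pow_left₀ (by positivity)
      have h8 : Real.log (2 ^ i) ≤ i := by
        rw [Real.log_pow]
        have : Real.log 2 ≤ 1 := by
          have := Real.log_two_lt_d9
          linarith
        nlinarith [(Nat.cast_nonneg i : (0 : ℝ) ≤ i)]
      have h9 : (i : ℝ) ≤ j + 1 := by
        have : i ≤ j + 1 := by omega
        exact_mod_cast this
      linarith
    refine (sum_le_sum h3).trans ?_
    rw [sum_const, card_range, nsmul_eq_mul]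
    have e1 : ((2 ^ (j + 2 - i) : ℕ) : ℝ) * 2 ^ i = 4 * 2 ^ j := by
      push_cast
      rw [← pow_add, Nat.sub_add_cancel (by omega), pow_add]
      ring
    have e2 : ((2 ^ (j + 2 - i) : ℕ) : ℝ) * (2 ^ i) ^ (d + 1) ≤ 4 ^ (d + 1) * (2 ^ j) ^ (d + 1) := by
      rw [pow_succ, mul_comm ((2 ^ i : ℝ) ^ d), ← mul_assoc, e1, pow_succ 4, pow_succ ((2 : ℝ) ^ j)]
      have : ((2 : ℝ) ^ i) ^ d ≤ (4 * 2 ^ j) ^ d := by
        apply pow_le_pow_left₀ (by positivity)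
        have h5 : (2 : ℝ) ^ i ≤ 2 ^ (j + 2) := pow_le_pow_right₀ (by norm_num) (by omega)
        rw [pow_add] at h5
        linarith
      rw [mul_pow] at this
      calc 4 * (2 : ℝ) ^ j * (2 ^ i) ^ d ≤ 4 * 2 ^ j * (4 ^ d * (2 ^ j) ^ d) :=
            mul_le_mul_of_nonneg_left this (by positivity)
        _ = _ := by ring
    have hj1 : (1 : ℝ) ≤ (j + 2) ^ (d + 1) := one_le_pow₀ (by linarith [(Nat.cast_nonneg j : (0 : ℝ) ≤ j)])
    set X : ℝ := ((2 ^ (j + 2 - i) : ℕ) : ℝ) with hX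
    set P : ℝ := (2 ^ j) ^ (d + 1) with hP
    set Q : ℝ := ((j : ℝ) + 2) ^ (d + 1) with hQ
    have hP0 : 0 < P := by positivity
    have hT0 : (0 : ℝ) ≤ T := Nat.cast_nonneg T
    have e3 : X * (2 * (d + 1 : ℝ) ^ (d + 1) * (2 * (d + 1) ^ 2 * T * ((2 : ℝ) ^ i) ^ (d + 1) +
        Real.pi * (d + 1) * (5 * 2 ^ j) ^ (d + 1) * (2 ^ i * (2 * (j + 2)) ^ (d + 1)))) =
        2 * (d + 1 : ℝ) ^ (d + 1) * (2 * (d + 1) ^ 2 * T * (X * ((2 : ℝ) ^ i) ^ (d + 1)) +
        Real.pi * (d + 1) * (5 ^ (d + 1) * P) * ((X * 2 ^ i) * (2 ^ (d + 1) * Q))) := by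
      rw [hP, hQ, mul_pow 5, mul_pow 2]
      ring
    rw [e3, e1]
    unfold KK
    have e4 : 2 * (d + 1 : ℝ) ^ 2 * T * (X * ((2 : ℝ) ^ i) ^ (d + 1)) ≤
        2 * (d + 1 : ℝ) ^ 2 * 4 ^ (d + 1) * (Q * P * (T + 2 ^ j)) := by
      calc 2 * (d + 1 : ℝ) ^ 2 * T * (X * ((2 : ℝ) ^ i) ^ (d + 1)) ≤
          2 * (d + 1 : ℝ) ^ 2 * T * (4 ^ (d + 1) * P) :=
            mul_le_mul_of_nonneg_left e2 (by positivity)
        _ = 2 * (d + 1 : ℝ) ^ 2 * 4 ^ (d + 1) * (1 * P * T) := by ring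
        _ ≤ _ := by
          apply mul_le_mul_of_nonneg_left _ (by positivity)
          apply mul_le_mul (mul_le_mul_of_nonneg_right hj1 hP0.le) _ hT0 (by positivity)
          linarith [show (0 : ℝ) < 2 ^ j by positivity]
    have e5 : Real.pi * (d + 1) * (5 ^ (d + 1) * P) * ((4 * 2 ^ j) * (2 ^ (d + 1) * Q)) ≤
        4 * Real.pi * (d + 1) * 10 ^ (d + 1) * (Q * P * (T + 2 ^ j)) := by
      have : (10 : ℝ) ^ (d + 1) = 5 ^ (d + 1) * 2 ^ (d + 1) := by
        rw [← mul_pow]; norm_num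
      rw [this]
      calc Real.pi * (d + 1) * (5 ^ (d + 1) * P) * ((4 * 2 ^ j) * (2 ^ (d + 1) * Q)) =
          4 * Real.pi * (d + 1) * (5 ^ (d + 1) * 2 ^ (d + 1)) * (Q * P * 2 ^ j) := by ring
        _ ≤ _ := by
          apply mul_le_mul_of_nonneg_left _ (by positivity)
          apply mul_le_mul_of_nonneg_left _ (by positivity)
          linarith
    calc 2 * (d + 1 : ℝ) ^ (d + 1) * (2 * (d + 1) ^ 2 * T * (X * ((2 : ℝ) ^ i) ^ (d + 1)) +
        Real.pi * (d + 1) * (5 ^ (d + 1) * P) * ((4 * 2 ^ j) * (2 ^ (d + 1) * Q))) ≤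
        2 * (d + 1 : ℝ) ^ (d + 1) * (2 * (d + 1 : ℝ) ^ 2 * 4 ^ (d + 1) * (Q * P * (T + 2 ^ j)) +
        4 * Real.pi * (d + 1) * 10 ^ (d + 1) * (Q * P * (T + 2 ^ j))) :=
          mul_le_mul_of_nonneg_left (add_le_add e4 e5) (by positivity)
      _ = _ := by ring
  refine (sum_le_sum h2).trans ?_
  rw [sum_const, card_range, nsmul_eq_mul, pow_succ ((j : ℝ) + 2) (d + 1)]
  push_cast
  apply le_of_eq
  ring

theorem integrable_W (d : ℕ) (c : ℤ → ℂ) (t : ℝ) (j : ℕ) :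
    Integrable (fun α => W d c α t j) (volume.restrict (cube d)) := by
  unfold W
  apply integrable_finsetSum
  intro i _
  apply integrable_finsetSum
  intro a _
  exact integrable_F d _ c t _

end Pool.Agent.K6.H70.MT
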