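import Mathlib

/-! Orthogonality over the unit cube, and the double sum over shifts. -/

set_option autoImplicit false

namespace Pool.Agent.K6.H70.MT

open Finset MeasureTheory

/-- the unit cube -/
def cube (d : ℕ) : Set (Fin d → ℝ) := Set.univ.pi fun _ => Set.Ioc 0 1

theorem measurableSet_cube (d : ℕ) : MeasurableSet (cube d) :=
  MeasurableSet.univ_pi fun _ => measurableSet_Ioc

theorem volume_cube (d : ℕ) : volume (cube d) = 1 := by
  unfold cube
  rw [Real.volume_pi_Ioc]
  simp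

theorem int_one (m : ℤ) :
    ∫ x in Set.Ioc (0 : ℝ) 1, Complex.exp (2 * Real.pi * Complex.I * ((x * m : ℝ) : ℂ)) =
      if m = 0 then 1 else 0 := by
  rw [← intervalIntegral.integral_of_le zero_le_one]
  split_ifs with h
  · subst h
    simp
  · have hc : (2 * Real.pi * Complex.I * m : ℂ) ≠ 0 := by
      have h1 : (m : ℂ) ≠ 0 := by exact_mod_cast h
      have h2 : (Real.pi : ℂ) ≠ 0 := by exact_mod_cast Real.pi_ne_zero
      simp [h1, h2]
    have h3 : ∀ x : ℝ, Complex.exp (2 * Real.pi * Complex.I * ((x * m : ℝ) : ℂ)) =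
        Complex.exp ((2 * Real.pi * Complex.I * m) * x) := by
      intro x
      congr 1
      push_cast
      ring
    simp only [h3]
    rw [integral_exp_mul_complex hc]
    have h4 : Complex.exp (2 * Real.pi * Complex.I * m * (1 : ℝ)) = 1 := by
      rw [Complex.exp_eq_one_iff]
      exact ⟨m, by push_cast; ring⟩
    rw [h4]
    simp

/-- the phase of the vector `v` -/
noncomputable def ev {d : ℕ} (α : Fin d → ℝ) (v : Fin d → ℤ) : ℂ :=
  Complex.exp (2 * Real.pi * Complex.I * ((∑ j, α j * v j : ℝ) : ℂ))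

theorem norm_ev {d : ℕ} (α : Fin d → ℝ) (v : Fin d → ℤ) : ‖ev α v‖ = 1 := by
  unfold ev
  have : (2 * Real.pi * Complex.I * ((∑ j, α j * v j : ℝ) : ℂ)) =
      ((2 * Real.pi * ∑ j, α j * v j : ℝ) : ℂ) * Complex.I := by
    push_cast
    ring
  rw [this, Complex.norm_exp_ofReal_mul_I]

theorem continuous_ev {d : ℕ} (v : Fin d → ℤ) : Continuous fun α => ev α v := by
  unfold ev
  fun_prop

theorem integrable_ev {d : ℕ} (v : Fin d → ℤ) (c : ℂ) :
    Integrable (fun α => c * ev α v) (volume.restrict (cube d)) := by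
  have : IsFiniteMeasure (volume.restrict (cube d)) :=
    ⟨by rw [Measure.restrict_apply_univ, volume_cube]; exact ENNReal.one_lt_top⟩
  apply Integrable.of_bound (C := ‖c‖)
  · exact (continuous_const.mul (continuous_ev v)).aestronglyMeasurable
  · refine Filter.Eventually.of_forall fun α => ?_
    rw [norm_mul, norm_ev, mul_one]

theorem int_ev {d : ℕ} (v : Fin d → ℤ) :
    ∫ α in cube d, ev α v = if v = 0 then 1 else 0 := by
  have h1 : volume.restrict (cube d) =
      Measure.pi fun _ : Fin d => (volume.restrict (Set.Ioc (0 : ℝ) 1)) := by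
    unfold cube
    rw [volume_pi, Measure.restrict_pi_pi]
  have h2 : ∀ α : Fin d → ℝ, ev α v =
      ∏ j, Complex.exp (2 * Real.pi * Complex.I * ((α j * v j : ℝ) : ℂ)) := by
    intro α
    unfold ev
    rw [← Complex.exp_sum, ← mul_sum]
    congr 2
    push_cast
    rfl
  simp only [h2]
  rw [h1, integral_fintype_prod_eq_prod (fun (j : Fin d) (x : ℝ) =>
    Complex.exp (2 * Real.pi * Complex.I * ((x * v j : ℝ) : ℂ)))]
  simp only [int_one]
  split_ifs with h
  · subst h
    simp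
  · have : ∃ j, v j ≠ 0 := by
      by_contra hcon
      push Not at hcon
      exact h (funext hcon)
    obtain ⟨j, hj⟩ := this
    exact prod_eq_zero (mem_univ j) (if_neg hj)

theorem ev_mul_conj {d : ℕ} (α : Fin d → ℝ) (v w : Fin d → ℤ) :
    ev α v * (starRingEnd ℂ) (ev α w) = ev α (v - w) := by
  unfold ev
  rw [← Complex.exp_conj, ← Complex.exp_add]
  congr 1
  simp only [map_mul, Complex.conj_I, Complex.conj_ofReal, map_ofNat, Pi.sub_apply]
  push_cast
  simp only [mul_sub, sum_sub_distrib]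
  ring

/-- **Parseval's identity** for an exponential sum over the cube. -/
theorem parseval {d : ℕ} {ι : Type*} [DecidableEq ι] (A : Finset ι) (a : ι → ℂ)
    (v : ι → Fin d → ℤ) :
    ((∫ α in cube d, ‖∑ i ∈ A, a i * ev α (v i)‖ ^ 2 : ℝ) : ℂ) =
      ∑ i ∈ A, ∑ j ∈ A.filter (fun j => v j = v i), a i * (starRingEnd ℂ) (a j) := by
  rw [← integral_complex_ofReal]
  have h1 : ∀ α : Fin d → ℝ, ((‖∑ i ∈ A, a i * ev α (v i)‖ ^ 2 : ℝ) : ℂ) =
      ∑ i ∈ A, ∑ j ∈ A, (a i * (starRingEnd ℂ) (a j)) * ev α (v i - v j) := by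
    intro α
    rw [← Complex.normSq_eq_norm_sq, ← Complex.mul_conj, map_sum, sum_mul_sum]
    apply sum_congr rfl
    intro i _
    apply sum_congr rfl
    intro j _
    rw [map_mul, ← ev_mul_conj]
    ring
  simp only [h1]
  rw [integral_finsetSum _ fun i _ => integrable_finsetSum _ fun j _ => integrable_ev _ _]
  apply sum_congr rfl
  intro i _
  rw [integral_finsetSum _ fun j _ => integrable_ev _ _, sum_filter]
  apply sum_congr rfl
  intro j _
  rw [integral_const_mul, int_ev]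
  by_cases h : v j = v i
  · rw [if_pos h, if_pos (by rw [h, sub_self]), mul_one]
  · rw [if_neg h, if_neg (fun h2 => h (sub_eq_zero.1 h2).symm), mul_zero]

/-- the exponential sum over the shifts -/
noncomputable def kk (R : ℕ) (x : ℝ) : ℂ :=
  ∑ u ∈ range R, Complex.exp (Complex.I * ((u * x : ℝ) : ℂ))

theorem kk_sq (R : ℕ) (x : ℝ) : ((‖kk R x‖ ^ 2 : ℝ) : ℂ) = ∑ u ∈ range R, ∑ w ∈ range R,
    Complex.exp (Complex.I * ((((u : ℝ) - w) * x : ℝ) : ℂ)) := by
  rw [← Complex.normSq_eq_norm_sq, ← Complex.mul_conj, kk, map_sum, sum_mul_sum]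
  apply sum_congr rfl
  intro u _
  apply sum_congr rfl
  intro w _
  rw [← Complex.exp_conj, ← Complex.exp_add, map_mul, Complex.conj_I, Complex.conj_ofReal]
  congr 1
  push_cast
  ring

/-- the sum over the shifts -/
theorem shifts {d : ℕ} {ι : Type*} [DecidableEq ι] (A : Finset ι) (a : ι → ℂ)
    (ha : ∀ i ∈ A, ‖a i‖ ≤ 1) (lam : ι → ℝ) (v : ι → Fin d → ℤ) (R : ℕ) (q : ℝ) :
    ∑ u ∈ range R, ∑ w ∈ range R, ∫ α in cube d,
      ‖∑ i ∈ A, a i * Complex.exp (Complex.I * ((((u : ℝ) - w) / q * lam i : ℝ) : ℂ)) *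
        ev α (v i)‖ ^ 2 ≤
      ∑ i ∈ A, ∑ j ∈ A.filter (fun j => v j = v i), ‖kk R ((lam i - lam j) / q)‖ ^ 2 := by
  have hsum : ((∑ u ∈ range R, ∑ w ∈ range R, ∫ α in cube d,
      ‖∑ i ∈ A, a i * Complex.exp (Complex.I * ((((u : ℝ) - w) / q * lam i : ℝ) : ℂ)) *
        ev α (v i)‖ ^ 2 : ℝ) : ℂ) = ∑ i ∈ A, ∑ j ∈ A.filter (fun j => v j = v i),
        (a i * (starRingEnd ℂ) (a j)) * ((‖kk R ((lam i - lam j) / q)‖ ^ 2 : ℝ) : ℂ) := by
    rw [Complex.ofReal_sum]
    simp only [Complex.ofReal_sum (range R)]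
    have h1 : ∀ u ∈ range R, ∀ w ∈ range R, ((∫ α in cube d,
      ‖∑ i ∈ A, a i * Complex.exp (Complex.I * ((((u : ℝ) - w) / q * lam i : ℝ) : ℂ)) *
        ev α (v i)‖ ^ 2 : ℝ) : ℂ) = ∑ i ∈ A, ∑ j ∈ A.filter (fun j => v j = v i),
          (a i * (starRingEnd ℂ) (a j)) *
          Complex.exp (Complex.I * ((((u : ℝ) - w) * ((lam i - lam j) / q) : ℝ) : ℂ)) := by
      intro u _ w _
      rw [parseval]
      apply sum_congr rfl
      intro i _
      apply sum_congr rfl
      intro j _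
      rw [map_mul, ← Complex.exp_conj, map_mul, Complex.conj_I, Complex.conj_ofReal]
      have : ∀ x y z w : ℂ, x * y * (z * w) = (x * z) * (y * w) := fun x y z w => by ring
      rw [this, ← Complex.exp_add]
      congr 2
      push_cast
      ring
    rw [sum_congr rfl fun u hu => sum_congr rfl fun w hw => h1 u hu w hw]
    have h3 : ∀ i ∈ A, ∀ j ∈ A.filter (fun j => v j = v i), (a i * (starRingEnd ℂ) (a j)) *
        ((‖kk R ((lam i - lam j) / q)‖ ^ 2 : ℝ) : ℂ) =
        ∑ u ∈ range R, ∑ w ∈ range R, (a i * (starRingEnd ℂ) (a j)) *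
          Complex.exp (Complex.I * ((((u : ℝ) - w) * ((lam i - lam j) / q) : ℝ) : ℂ)) := by
      intro i _ j _
      rw [kk_sq, mul_sum]
      simp only [mul_sum]
    rw [sum_congr rfl fun i hi => sum_congr rfl fun j hj => h3 i hi j hj]
    rw [sum_congr rfl fun u _ => sum_comm]
    rw [sum_comm]
    apply sum_congr rfl
    intro i _
    rw [sum_congr rfl fun u _ => sum_comm]
    rw [sum_comm]
  have h5 := congrArg norm hsum
  rw [Complex.norm_real, Real.norm_of_nonneg (by positivity)] at h5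
  rw [h5]
  refine (norm_sum_le _ _).trans (sum_le_sum fun i hi => (norm_sum_le _ _).trans
    (sum_le_sum fun j hj => ?_))
  rw [mem_filter] at hj
  rw [norm_mul, norm_mul, RCLike.norm_conj, Complex.norm_real, Real.norm_of_nonneg (by positivity)]
  have h6 : ‖a i‖ * ‖a j‖ ≤ 1 := mul_le_one₀ (ha i hi) (norm_nonneg _) (ha j hj.1)
  calc _ ≤ 1 * _ := mul_le_mul_of_nonneg_right h6 (by positivity)
    _ = _ := one_mul _

end Pool.Agent.K6.H70.MT
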