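import Pool.Agent.K6.H70.MT.Count
import Pool.Agent.K6.H70.MT.Orth

/-! The mean value theorem over the unit cube of twists. -/

set_option autoImplicit false

namespace Pool.Agent.K6.H70.MT

open Finset MeasureTheory

/-! ### sums over shifts -/

theorem window_le (g : ℤ → ℝ) (hg : ∀ s, 0 ≤ g s) (S R : ℕ) (h : 2 * S ≤ R) :
    (R / 2 : ℝ) * ∑ s ∈ Icc 1 S, g s ≤ ∑ u ∈ range R, ∑ w ∈ range R, g ((u : ℤ) - w) := by
  rw [sum_comm]
  have h1 : ∀ w ∈ range (R - S), ∑ s ∈ Icc 1 S, g s ≤ ∑ u ∈ range R, g ((u : ℤ) - w) := by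
    intro w hw
    rw [mem_range] at hw
    have h2 : ∑ s ∈ Icc 1 S, g s = ∑ u ∈ (Icc 1 S).image (fun s => s + w), g ((u : ℤ) - w) := by
      rw [sum_image fun a _ b _ h => by simpa using h]
      apply sum_congr rfl
      intro s _
      congr 1
      push_cast
      ring
    rw [h2]
    apply sum_le_sum_of_subset_of_nonneg
    · intro u hu
      rw [mem_image] at hu
      obtain ⟨s, hs, rfl⟩ := hu
      rw [mem_Icc] at hs
      rw [mem_range]
      omega
    · intro u _ _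
      exact hg _
  have hS : S ≤ R := by omega
  calc (R / 2 : ℝ) * ∑ s ∈ Icc 1 S, g s ≤ ((R - S : ℕ) : ℝ) * ∑ s ∈ Icc 1 S, g s := by
        apply mul_le_mul_of_nonneg_right _ (sum_nonneg fun _ _ => hg _)
        rw [Nat.cast_sub hS]
        have : (2 * S : ℝ) ≤ R := by exact_mod_cast h
        linarith
    _ = ∑ w ∈ range (R - S), ∑ s ∈ Icc 1 S, g s := by rw [sum_const, card_range, nsmul_eq_mul]
    _ ≤ ∑ w ∈ range (R - S), ∑ u ∈ range R, g ((u : ℤ) - w) := sum_le_sum h1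
    _ ≤ ∑ w ∈ range R, ∑ u ∈ range R, g ((u : ℤ) - w) := by
        apply sum_le_sum_of_subset_of_nonneg
        · exact range_subset_range.2 (by omega)
        · intro w _ _
          exact sum_nonneg fun _ _ => hg _

theorem sub_window (g : ℤ → ℝ) (hg : ∀ s, 0 ≤ g s) (k T : ℕ) (hk : 1 ≤ k) :
    ∑ t ∈ Icc 1 T, g (k * t : ℕ) ≤ ∑ s ∈ Icc 1 (k * T), g s := by
  have h2 : ∑ t ∈ Icc 1 T, g (k * t : ℕ) = ∑ u ∈ (Icc 1 T).image (fun s => k * s), g u := by
    rw [sum_image fun a _ b _ h => Nat.eq_of_mul_eq_mul_left hk h]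
  rw [h2]
  apply sum_le_sum_of_subset_of_nonneg
  · intro u hu
    rw [mem_image] at hu
    obtain ⟨s, hs, rfl⟩ := hu
    rw [mem_Icc] at hs ⊢
    exact ⟨Nat.one_le_iff_ne_zero.2 (Nat.mul_ne_zero (by omega) (by omega)),
      Nat.mul_le_mul_left _ hs.2⟩
  · intro u _ _
    exact hg _

/-! ### the kernel -/

theorem kk_le (R : ℕ) (x : ℝ) : ‖kk R x‖ ≤ R := by
  unfold kk
  calc _ ≤ ∑ u ∈ range R, ‖Complex.exp (Complex.I * ((u * x : ℝ) : ℂ))‖ := norm_sum_le _ _
    _ = ∑ u ∈ range R, (1 : ℝ) := by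
        apply sum_congr rfl
        intro u _
        rw [mul_comm, Complex.norm_exp_ofReal_mul_I]
    _ = R := by simp

theorem kk_le' (R : ℕ) {x : ℝ} (hx0 : x ≠ 0) (hx : |x| ≤ Real.pi) :
    ‖kk R x‖ ≤ Real.pi / |x| := by
  set z : ℂ := Complex.exp (Complex.I * (x : ℂ)) with hz
  have h1 : kk R x = ∑ u ∈ range R, z ^ u := by
    unfold kk
    apply sum_congr rfl
    intro u _
    rw [hz, ← Complex.exp_nat_mul]
    congr 1
    push_cast
    ring
  have h2 : (∑ u ∈ range R, z ^ u) * (z - 1) = z ^ R - 1 := geom_sum_mul z R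
  have hzn : ‖z‖ = 1 := by rw [hz, mul_comm, Complex.norm_exp_ofReal_mul_I]
  have h3 : ‖z ^ R - 1‖ ≤ 2 := by
    calc _ ≤ ‖z ^ R‖ + ‖(1 : ℂ)‖ := norm_sub_le _ _
      _ = 2 := by rw [norm_pow, hzn, one_pow, norm_one]; norm_num
  have h4 : 2 * |x| / Real.pi ≤ ‖z - 1‖ := by
    rw [hz, Complex.norm_exp_I_mul_ofReal_sub_one, norm_mul, Real.norm_eq_abs, Real.norm_eq_abs]
    have h5 := Real.mul_abs_le_abs_sin (x := x / 2) (by rw [abs_div, abs_two]; linarith)
    rw [abs_div, abs_two] at h5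
    rw [abs_two]
    calc 2 * |x| / Real.pi = 2 * (2 / Real.pi * (|x| / 2)) := by ring
      _ ≤ _ := by linarith
  have hpos : 0 < |x| := abs_pos.2 hx0
  have h6 : 0 < 2 * |x| / Real.pi := by positivity
  rw [h1]
  have h7 : ‖∑ u ∈ range R, z ^ u‖ * ‖z - 1‖ ≤ 2 := by
    rw [← norm_mul, h2]; exact h3
  have h8 : ‖∑ u ∈ range R, z ^ u‖ * (2 * |x| / Real.pi) ≤ 2 :=
    (mul_le_mul_of_nonneg_left h4 (norm_nonneg _)).trans h7
  rw [le_div_iff₀ hpos]
  have hpi := Real.pi_pos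
  rw [mul_div_assoc', div_le_iff₀ hpi] at h8
  linarith

/-! ### harmonic sums -/

theorem harm_le (J : Finset ℤ) (H : ℕ) (hH : ∀ x ∈ J, ∀ y ∈ J, |x - y| ≤ H) (x : ℤ) (hx : x ∈ J) :
    ∑ n ∈ J, (if n = x then (0 : ℝ) else 1 / |((x - n : ℤ) : ℝ)|) ≤ 2 * (1 + Real.log (H : ℝ)) ∨ H = 0 := by
  rcases Nat.eq_zero_or_pos H with h0 | hpos
  · exact Or.inr h0
  left
  have hh : ∑ m ∈ Icc 1 H, (1 : ℝ) / m ≤ 1 + Real.log H := by
    have h1 := harmonic_le_one_add_log H
    rw [harmonic_eq_sum_Icc] at h1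
    push_cast at h1
    simpa [one_div] using h1
  have key : ∀ s : ℤ, s = 1 ∨ s = -1 →
      ∑ n ∈ J.filter (fun n => 0 < s * (n - x)), (if n = x then (0 : ℝ) else 1 / |((x - n : ℤ) : ℝ)|) ≤
        ∑ m ∈ Icc 1 H, (1 : ℝ) / m := by
    intro s hs
    have h2 : ∑ n ∈ J.filter (fun n => 0 < s * (n - x)), (if n = x then (0 : ℝ) else 1 / |((x - n : ℤ) : ℝ)|) =
        ∑ m ∈ (J.filter (fun n => 0 < s * (n - x))).image (fun n => (s * (n - x)).toNat), (1 : ℝ) / m := by
      rw [sum_image]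
      · apply sum_congr rfl
        intro n hn
        rw [mem_filter] at hn
        have hne : n ≠ x := by
          rintro rfl
          simp at hn
        rw [if_neg hne]
        congr 1
        have h3 : ((s * (n - x)).toNat : ℤ) = |x - n| := by
          rw [Int.toNat_of_nonneg hn.2.le]
          rcases hs with rfl | rfl
          · rw [abs_of_nonpos (by omega)]; ring
          · rw [abs_of_nonneg (by omega)]; ring
        have h4 : (((s * (n - x)).toNat : ℤ) : ℝ) = ((|x - n| : ℤ) : ℝ) := by rw [h3]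
        rw [Int.cast_abs] at h4
        rw [← h4]
        norm_cast
      · intro a ha b hb hab
        rw [mem_coe, mem_filter] at ha hb
        simp only at hab
        rcases hs with rfl | rfl <;> omega
    rw [h2]
    apply sum_le_sum_of_subset_of_nonneg
    · intro m hm
      rw [mem_image] at hm
      obtain ⟨n, hn, rfl⟩ := hm
      rw [mem_filter] at hn
      have h5 := hH x hx n hn.1
      rw [abs_le] at h5
      rw [mem_Icc]
      rcases hs with rfl | rfl <;> omega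
    · intro m _ _
      positivity
  have hsplit : ∑ n ∈ J, (if n = x then (0 : ℝ) else 1 / |((x - n : ℤ) : ℝ)|) =
      ∑ n ∈ J.filter (fun n => 0 < (1 : ℤ) * (n - x)), (if n = x then (0 : ℝ) else 1 / |((x - n : ℤ) : ℝ)|) +
      ∑ n ∈ J.filter (fun n => 0 < (-1 : ℤ) * (n - x)), (if n = x then (0 : ℝ) else 1 / |((x - n : ℤ) : ℝ)|) := by
    rw [sum_filter, sum_filter, ← sum_add_distrib]
    apply sum_congr rfl
    intro n _
    rcases lt_trichotomy n x with h | h | h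
    · rw [if_neg (by omega : ¬ (0 < (1 : ℤ) * (n - x))), if_pos (by omega : (0 < (-1 : ℤ) * (n - x))), zero_add]
    · subst h
      simp
    · rw [if_pos (by omega : (0 < (1 : ℤ) * (n - x))), if_neg (by omega : ¬ (0 < (-1 : ℤ) * (n - x))), add_zero]
  rw [hsplit]
  have h1 := key 1 (Or.inl rfl)
  have h2 := key (-1) (Or.inr rfl)
  linarith

end Pool.Agent.K6.H70.MT
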