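import Pool.Agent.K6.H70.MT.Mean

/-! The mean value theorem for twisted Dirichlet polynomials. -/

set_option autoImplicit false

namespace Pool.Agent.K6.H70.MT

open Finset MeasureTheory

/-- the exponents of the twist -/
def vv (d : ℕ) (n : ℤ) : Fin d → ℤ := fun j => n ^ (j.val + 1)

/-- the twisted Dirichlet polynomial -/
noncomputable def F (d : ℕ) (J : Finset ℤ) (c : ℤ → ℂ) (α : Fin d → ℝ) (t : ℝ) : ℂ :=
  ∑ n ∈ J, c n * Complex.exp (Complex.I * ((t * Real.log n : ℝ) : ℂ)) * ev α (vv d n)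

theorem ev_sum {d : ℕ} (α : Fin d → ℝ) {ι : Type*} (s : Finset ι) (v : ι → Fin d → ℤ) :
    ∏ i ∈ s, ev α (v i) = ev α (∑ i ∈ s, v i) := by
  unfold ev
  rw [← Complex.exp_sum, ← mul_sum]
  congr 2
  push_cast
  rw [sum_comm]
  apply sum_congr rfl
  intro j _
  rw [← mul_sum, Finset.sum_apply]
  push_cast
  rfl

theorem F_pow (d : ℕ) (J : Finset ℤ) (c : ℤ → ℂ) (α : Fin d → ℝ) (t : ℝ) :
    F d J c α t ^ (d + 1) = ∑ n ∈ Fintype.piFinset (fun _ : Fin (d + 1) => J),
      (∏ i, c (n i)) * Complex.exp (Complex.I * ((t * ∑ i, Real.log (n i) : ℝ) : ℂ)) *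
        ev α (∑ i, vv d (n i)) := by
  have h1 := Finset.prod_univ_sum (fun _ : Fin (d + 1) => J) (fun (_ : Fin (d + 1)) (n : ℤ) =>
    c n * Complex.exp (Complex.I * ((t * Real.log n : ℝ) : ℂ)) * ev α (vv d n))
  rw [prod_const, card_univ, Fintype.card_fin] at h1
  unfold F
  rw [h1]
  apply sum_congr rfl
  intro n _
  rw [prod_mul_distrib, prod_mul_distrib, ev_sum, ← Complex.exp_sum, ← mul_sum]
  congr 4
  push_cast
  rw [mul_sum]

theorem eqP_iff (d : ℕ) (m n : Fin (d + 1) → ℤ) :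
    (∑ i, vv d (m i) = ∑ i, vv d (n i)) ↔ EqP d m n := by
  constructor
  · intro h j h1 h2
    have h3 := congrFun h ⟨j - 1, by omega⟩
    simp only [Finset.sum_apply, vv] at h3
    rwa [Nat.sub_add_cancel h1] at h3
  · intro h
    funext j
    simp only [Finset.sum_apply, vv]
    exact h (j.val + 1) (by omega) (by omega)

theorem log_sub_ge {x y : ℤ} (hx : 1 ≤ x) (hy : 1 ≤ y) {B : ℝ} (hxB : (x : ℝ) ≤ B)
    (hyB : (y : ℝ) ≤ B) : |((x - y : ℤ) : ℝ)| / B ≤ |Real.log x - Real.log y| := by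
  wlog h : y ≤ x generalizing x y
  · have := this hy hx hyB hxB (le_of_not_ge h)
    rw [abs_sub_comm (Real.log x), ← abs_neg]
    convert this using 3
    push_cast; ring
  have hx0 : (0 : ℝ) < x := by exact_mod_cast hx
  have hy0 : (0 : ℝ) < y := by exact_mod_cast hy
  have hB : 0 < B := by linarith
  have hxy : (y : ℝ) ≤ x := by exact_mod_cast h
  have h1 : Real.log y - Real.log x ≤ y / x - 1 := by
    rw [← Real.log_div hy0.ne' hx0.ne']
    exact Real.log_le_sub_one_of_pos (by positivity)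
  have h2 : Real.log y ≤ Real.log x := Real.log_le_log hy0 hxy
  rw [abs_of_nonneg (by linarith : 0 ≤ Real.log x - Real.log y),
    abs_of_nonneg (by push_cast; linarith)]
  calc (((x - y : ℤ)) : ℝ) / B ≤ ((x - y : ℤ) : ℝ) / x := by
        apply div_le_div_of_nonneg_left _ hx0 hxB
        push_cast; linarith
    _ = 1 - y / x := by push_cast; field_simp
    _ ≤ _ := by linarith

theorem integrable_F (d : ℕ) (J : Finset ℤ) (c : ℤ → ℂ) (t : ℝ) (m : ℕ) :
    Integrable (fun α => ‖F d J c α t‖ ^ m) (volume.restrict (cube d)) := by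
  have : IsFiniteMeasure (volume.restrict (cube d)) :=
    ⟨by rw [Measure.restrict_apply_univ, volume_cube]; exact ENNReal.one_lt_top⟩
  have hcont : Continuous fun α => F d J c α t := by
    unfold F
    refine continuous_finsetSum _ fun n _ => ?_
    exact continuous_const.mul (continuous_ev _)
  apply Integrable.of_bound (C := (∑ n ∈ J, ‖c n‖) ^ m)
  · exact (hcont.norm.pow m).aestronglyMeasurable
  · refine Filter.Eventually.of_forall fun α => ?_
    rw [norm_pow, norm_norm]
    apply pow_le_pow_left₀ (norm_nonneg _)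
    unfold F
    refine (norm_sum_le _ _).trans (sum_le_sum fun n _ => ?_)
    rw [norm_mul, norm_mul, norm_ev, mul_one, mul_comm Complex.I, Complex.norm_exp_ofReal_mul_I,
      mul_one]

/-- **The mean value theorem.** -/
theorem mean (d : ℕ) (J : Finset ℤ) (c : ℤ → ℂ) (hc : ∀ n ∈ J, ‖c n‖ ≤ 1) {b B : ℤ} (hb : 1 ≤ b)
    (hB : B ≤ 8 * b) (hJ : ∀ n ∈ J, b ≤ n ∧ n ≤ B) {H : ℕ} (hH1 : 1 ≤ H)
    (hH : ∀ x ∈ J, ∀ y ∈ J, |x - y| ≤ H) {T : ℕ} (hT : 1 ≤ T) :
    ∑ t ∈ Icc 1 T, ∫ α in cube d, ‖F d J c α t‖ ^ (2 * (d + 1)) ≤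
      2 * (d + 1 : ℝ) ^ (d + 1) * (2 * (d + 1) ^ 2 * T * (J.card : ℝ) ^ (d + 1) +
        Real.pi * (d + 1) * (B : ℝ) ^ (d + 1) * (J.card * (2 * (1 + Real.log H)) ^ (d + 1))) := by
  classical
  rcases J.eq_empty_or_nonempty with rfl | ⟨n0, hn0⟩
  · simp [F]
  have hbB := hJ n0 hn0
  have hB1 : 1 ≤ B := by omega
  set k : ℕ := d + 1 with hk
  have hkr : (k : ℝ) = d + 1 := by rw [hk]; push_cast; ring
  set R : ℕ := 2 * (k * T) with hR
  have hkT : 1 ≤ k * T := Nat.one_le_iff_ne_zero.2 (Nat.mul_ne_zero (by omega) (by omega))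
  set g : ℤ → ℝ := fun s => ∫ α in cube d, ‖F d J c α ((s : ℝ) / k)‖ ^ (2 * (d + 1)) with hg
  have hg0 : ∀ s, 0 ≤ g s := fun s => integral_nonneg fun _ => by positivity
  have hk0 : (k : ℝ) ≠ 0 := by rw [hkr]; positivity
  have e1 : ∑ t ∈ Icc 1 T, ∫ α in cube d, ‖F d J c α t‖ ^ (2 * (d + 1)) =
      ∑ t ∈ Icc 1 T, g (k * t : ℕ) := by
    apply sum_congr rfl
    intro t _
    simp only [hg]
    congr 1
    funext α
    congr 3
    push_cast
    field_simp
  have e2 := sub_window g hg0 k T (by omega)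
  have e3 := window_le g hg0 (k * T) R le_rfl
  -- the shifts
  set A := Fintype.piFinset (fun _ : Fin (d + 1) => J) with hA
  have e4 := shifts A (fun n => ∏ i, c (n i)) (fun n hn => by
      rw [norm_prod]
      apply prod_le_one (fun _ _ => norm_nonneg _)
      intro i _
      rw [hA, Fintype.mem_piFinset] at hn
      exact hc _ (hn i)) (fun n => ∑ i, Real.log (n i)) (fun n => ∑ i, vv d (n i)) R k
  have e5 : ∑ u ∈ range R, ∑ w ∈ range R, g ((u : ℤ) - w) =
      ∑ u ∈ range R, ∑ w ∈ range R, ∫ α in cube d,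
      ‖∑ n ∈ A, (∏ i, c (n i)) *
        Complex.exp (Complex.I * ((((u : ℝ) - w) / k * ∑ i, Real.log (n i) : ℝ) : ℂ)) *
        ev α (∑ i, vv d (n i))‖ ^ 2 := by
    apply sum_congr rfl
    intro u _
    apply sum_congr rfl
    intro w _
    simp only [hg]
    congr 1
    funext α
    rw [mul_comm 2 (d + 1), pow_mul, ← norm_pow, F_pow]
    push_cast
    rfl
  rw [← e5] at e4
  -- the kernel
  set K : (Fin (d + 1) → ℤ) → (Fin (d + 1) → ℤ) → ℝ := fun n m =>
    ‖kk R ((∑ i, Real.log (n i) - ∑ i, Real.log (m i)) / k)‖ ^ 2 with hK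
  have hRr : (0 : ℝ) ≤ R := Nat.cast_nonneg _
  have hlogprod : ∀ n : Fin (d + 1) → ℤ, (∀ i, n i ∈ J) →
      ∑ i, Real.log (n i) = Real.log ((∏ i, n i : ℤ) : ℝ) := by
    intro n hn
    push_cast
    rw [Real.log_prod]
    intro i _
    have := (hJ _ (hn i)).1
    have h2 : (n i : ℝ) ≠ 0 := by
      have : n i ≠ 0 := by omega
      exact_mod_cast this
    exact h2
  have hprod1 : ∀ n : Fin (d + 1) → ℤ, (∀ i, n i ∈ J) → 1 ≤ ∏ i, n i := by
    intro n hn
    have : 0 < ∏ i, n i := prod_pos fun i _ => by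
      have := (hJ _ (hn i)).1
      omega
    omega
  have hprodB : ∀ n : Fin (d + 1) → ℤ, (∀ i, n i ∈ J) → ((∏ i, n i : ℤ) : ℝ) ≤ (B : ℝ) ^ (d + 1) := by
    intro n hn
    have h1 : ∏ i, n i ≤ ∏ _i : Fin (d + 1), B := by
      apply prod_le_prod
      · intro i _
        have := (hJ _ (hn i)).1
        omega
      · intro i _
        exact (hJ _ (hn i)).2
    rw [prod_const, card_univ, Fintype.card_fin] at h1
    exact_mod_cast h1
  have hpair := pair_sum (d := d) J K (R := R) (Z := Real.pi * k * (B : ℝ) ^ (d + 1))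
    (L := 2 * (1 + Real.log H)) hRr (by
      have hBr : (0 : ℝ) ≤ B := by exact_mod_cast (by omega : (0 : ℤ) ≤ B)
      have := Real.pi_pos
      positivity)
    (fun n m => by
      simp only [hK]
      exact pow_le_pow_left₀ (norm_nonneg _) (kk_le _ _) 2)
    (fun n m hn hm hne => by
      simp only [hK]
      have hx := hprod1 n hn
      have hy := hprod1 m hm
      have h1 := log_sub_ge hx hy (hprodB n hn) (hprodB m hm)
      rw [← hlogprod n hn, ← hlogprod m hm] at h1
      set δ : ℝ := ∑ i, Real.log (n i) - ∑ i, Real.log (m i) with hδ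
      have hBp : (0 : ℝ) < (B : ℝ) ^ (d + 1) := by
        have : (0 : ℝ) < B := by exact_mod_cast (by omega : (0 : ℤ) < B)
        positivity
      have hne' : (0 : ℝ) < |((∏ i, n i - ∏ i, m i : ℤ) : ℝ)| := by
        rw [abs_pos]
        exact_mod_cast sub_ne_zero.2 hne
      have hδ0 : 0 < |δ| := lt_of_lt_of_le (by positivity) h1
      have hδne : δ / k ≠ 0 := div_ne_zero (abs_pos.1 hδ0) hk0
      -- the upper bound
      have hup : |δ / k| ≤ Real.pi := by
        rw [abs_div, abs_of_pos (by rw [hkr]; positivity : (0 : ℝ) < k), div_le_iff₀ (by rw [hkr]; positivity)]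
        rw [hδ, ← sum_sub_distrib]
        refine (abs_sum_le_sum_abs _ _).trans ?_
        have h2 : ∀ i ∈ (univ : Finset (Fin (d + 1))), |Real.log (n i) - Real.log (m i)| ≤ Real.pi := by
          intro i _
          have hni := hJ _ (hn i)
          have hmi := hJ _ (hm i)
          have hb0 : (0 : ℝ) < b := by exact_mod_cast hb
          have l1 : ∀ x : ℤ, b ≤ x ∧ x ≤ B → Real.log b ≤ Real.log x ∧
              Real.log x ≤ Real.log b + Real.log 8 := by
            intro x hx
            have hx1 : (b : ℝ) ≤ x := by exact_mod_cast hx.1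
            refine ⟨Real.log_le_log hb0 hx1, ?_⟩
            rw [← Real.log_mul hb0.ne' (by norm_num)]
            apply Real.log_le_log (by linarith)
            have : x ≤ b * 8 := by omega
            exact_mod_cast this
          have a1 := l1 _ hni
          have a2 := l1 _ hmi
          have a3 : Real.log 8 ≤ 3 := by
            have : (8 : ℝ) = 2 ^ 3 := by norm_num
            rw [this, Real.log_pow]
            have := Real.log_two_lt_d9
            push_cast
            linarith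
          rw [abs_le]
          have := Real.pi_gt_three
          constructor <;> linarith
        refine (sum_le_sum h2).trans (le_of_eq ?_)
        rw [sum_const, card_univ, Fintype.card_fin, nsmul_eq_mul, hk]
        ring
      have h3 := kk_le' R hδne hup
      have h4 := kk_le R (δ / k)
      calc ‖kk R (δ / k)‖ ^ 2 = ‖kk R (δ / k)‖ * ‖kk R (δ / k)‖ := sq _
        _ ≤ R * (Real.pi / |δ / k|) := mul_le_mul h4 h3 (norm_nonneg _) hRr
        _ ≤ _ := by
            rw [mul_div_assoc]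
            apply mul_le_mul_of_nonneg_left _ hRr
            rw [abs_div, abs_of_pos (by rw [hkr]; positivity : (0 : ℝ) < k)]
            rw [div_div_eq_mul_div, div_le_div_iff₀ hδ0 hne']
            rw [div_le_iff₀ hBp] at h1
            have hpi := Real.pi_pos
            have hk1 : (0 : ℝ) < k := by rw [hkr]; positivity
            calc Real.pi * k * |((∏ i, n i - ∏ i, m i : ℤ) : ℝ)| ≤
                Real.pi * k * (|δ| * (B : ℝ) ^ (d + 1)) :=
                  mul_le_mul_of_nonneg_left h1 (by positivity)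
              _ = _ := by ring)
    (by
      have : 0 ≤ Real.log (H : ℝ) := Real.log_natCast_nonneg H
      positivity)
    (fun x hx => (harm_le J H hH x hx).resolve_right (by omega))
  have e6 : ∑ i ∈ A, ∑ j ∈ A.filter (fun j => ∑ l, vv d (j l) = ∑ l, vv d (i l)),
      ‖kk R ((∑ l, Real.log (i l) - ∑ l, Real.log (j l)) / k)‖ ^ 2 =
      ∑ n ∈ A, ∑ m ∈ A.filter (fun m => EqP d m n), K n m := by
    apply sum_congr rfl
    intro n _
    apply sum_congr
    · ext m
      simp only [mem_filter, eqP_iff]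
    · intro m _
      rfl
  rw [e6] at e4
  have e7 := e4.trans hpair
  have hRpos : (0 : ℝ) < R := by
    have : 0 < R := by omega
    exact_mod_cast this
  have e8 : ∑ t ∈ Icc 1 T, g (k * t : ℕ) ≤ (2 / R) * ((d + 1 : ℝ) ^ (d + 1) *
      ((d + 1) * (J.card : ℝ) ^ (d + 1) * R ^ 2 +
      R * (Real.pi * k * (B : ℝ) ^ (d + 1)) * (J.card * (2 * (1 + Real.log H)) ^ (d + 1)))) := by
    have h1 := e3.trans e7
    have h2 := e2
    have h3 : ∑ s ∈ Icc 1 (k * T), g s ≤ (2 / R) * ((d + 1 : ℝ) ^ (d + 1) *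
      ((d + 1) * (J.card : ℝ) ^ (d + 1) * R ^ 2 +
      R * (Real.pi * k * (B : ℝ) ^ (d + 1)) * (J.card * (2 * (1 + Real.log H)) ^ (d + 1)))) := by
      calc ∑ s ∈ Icc 1 (k * T), g s = (2 / R) * ((R / 2) * ∑ s ∈ Icc 1 (k * T), g s) := by
            field_simp
        _ ≤ _ := mul_le_mul_of_nonneg_left h1 (by positivity)
    exact h2.trans h3
  rw [e1]
  refine e8.trans (le_of_eq ?_)
  have hRk : (R : ℝ) = 2 * ((d + 1) * T) := by rw [hR, hk]; push_cast; ring
  have : (2 / (R : ℝ)) * ((d + 1 : ℝ) ^ (d + 1) *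
      ((d + 1) * (J.card : ℝ) ^ (d + 1) * R ^ 2 +
      R * (Real.pi * k * (B : ℝ) ^ (d + 1)) * (J.card * (2 * (1 + Real.log H)) ^ (d + 1)))) =
      2 * (d + 1 : ℝ) ^ (d + 1) * ((d + 1) * (J.card : ℝ) ^ (d + 1) * R +
      (Real.pi * k * (B : ℝ) ^ (d + 1)) * (J.card * (2 * (1 + Real.log H)) ^ (d + 1))) := by
    field_simp
  rw [this, hRk, hkr]
  ring

end Pool.Agent.K6.H70.MT
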