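import Mathlib

/-! Equal power sums up to `k - 1`: the polynomials with these `k` roots differ by a constant. -/

set_option autoImplicit false

namespace Pool.Agent.K6.H70.MT

open Finset Polynomial

theorem esymm_eq {k : ℕ} (x y : Fin k → ℚ)
    (h : ∀ j, 1 ≤ j → j < k → ∑ i, x i ^ j = ∑ i, y i ^ j) :
    ∀ j, j < k → (univ.val.map x).esymm j = (univ.val.map y).esymm j := by
  intro j
  induction j using Nat.strong_induction_on with
  | _ j ih =>
    intro hj
    rcases Nat.eq_zero_or_pos j with rfl | hj0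
    · simp [Multiset.esymm]
    · have key : ∀ z : Fin k → ℚ, (j : ℚ) * (univ.val.map z).esymm j = (-1) ^ (j + 1) *
          ∑ a ∈ (antidiagonal j).filter (fun a => a.1 < j),
            (-1) ^ a.1 * (univ.val.map z).esymm a.1 * ∑ i, z i ^ a.2 := by
        intro z
        have h1 := congrArg (MvPolynomial.aeval z) (MvPolynomial.mul_esymm_eq_sum (Fin k) ℚ j)
        simp only [map_mul, map_sum, map_pow, map_neg, map_one, map_natCast,
          MvPolynomial.aeval_esymm_eq_multiset_esymm, MvPolynomial.psum, MvPolynomial.aeval_X] at h1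
        exact h1
      have hx := key x
      have hy := key y
      have hs : ∑ a ∈ (antidiagonal j).filter (fun a => a.1 < j),
            (-1) ^ a.1 * (univ.val.map x).esymm a.1 * ∑ i, x i ^ a.2 =
          ∑ a ∈ (antidiagonal j).filter (fun a => a.1 < j),
            (-1 : ℚ) ^ a.1 * (univ.val.map y).esymm a.1 * ∑ i, y i ^ a.2 := by
        apply sum_congr rfl
        rintro ⟨a, b⟩ hab
        rw [mem_filter, HasAntidiagonal.mem_antidiagonal] at hab
        simp only at hab
        rw [ih a hab.2 (by omega), h b (by omega) (by omega)]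
      rw [hs, ← hy] at hx
      have hj' : (j : ℚ) ≠ 0 := by exact_mod_cast hj0.ne'
      exact mul_left_cancel₀ hj' hx

theorem prod_sub {k : ℕ} (x : Fin k → ℚ) (z : ℚ) :
    ∏ i, (z - x i) = ∑ j ∈ range (k + 1), (-1) ^ j * ((univ.val.map x).esymm j * z ^ (k - j)) := by
  have h := Multiset.prod_X_sub_X_eq_sum_esymm (univ.val.map x)
  have h1 := congrArg (Polynomial.eval z) h
  rw [Polynomial.eval_multiset_prod, Multiset.map_map, Multiset.map_map] at h1
  simp only [Multiset.card_map, Finset.card_val, Finset.card_univ, Fintype.card_fin,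
    Polynomial.eval_finsetSum, Polynomial.eval_mul, Polynomial.eval_pow, Polynomial.eval_neg,
    Polynomial.eval_one, Polynomial.eval_C, Polynomial.eval_X] at h1
  rw [← h1]
  rw [Finset.prod]
  congr 1
  apply Multiset.map_congr rfl
  intro i _
  simp

/-- **Equal power sums up to `k - 1`.** -/
theorem prod_sub_const {k : ℕ} (x y : Fin k → ℤ)
    (h : ∀ j, 1 ≤ j → j < k → ∑ i, x i ^ j = ∑ i, y i ^ j) (z w : ℤ) :
    ∏ i, (z - x i) - ∏ i, (z - y i) = ∏ i, (w - x i) - ∏ i, (w - y i) := by
  have hq : ∀ j, 1 ≤ j → j < k → ∑ i, (x i : ℚ) ^ j = ∑ i, (y i : ℚ) ^ j := by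
    intro j h1 h2
    exact_mod_cast h j h1 h2
  have he := esymm_eq _ _ hq
  have key : ∀ t : ℚ, ∏ i, (t - (x i : ℚ)) - ∏ i, (t - (y i : ℚ)) =
      (-1) ^ k * ((univ.val.map fun i => (x i : ℚ)).esymm k -
        (univ.val.map fun i => (y i : ℚ)).esymm k) := by
    intro t
    rw [prod_sub, prod_sub, sum_range_succ, sum_range_succ]
    have h3 : ∑ j ∈ range k, (-1 : ℚ) ^ j * ((univ.val.map fun i => (x i : ℚ)).esymm j * t ^ (k - j)) =
        ∑ j ∈ range k, (-1) ^ j * ((univ.val.map fun i => (y i : ℚ)).esymm j * t ^ (k - j)) := by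
      apply sum_congr rfl
      intro j hj
      rw [he j (mem_range.1 hj)]
    rw [h3]
    simp
    ring
  have h4 := (key z).trans (key w).symm
  exact_mod_cast h4

end Pool.Agent.K6.H70.MT
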